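import Mathlib
import Pool.Agent.MP_038f7f_co.h77.Defs

/-!
Pattern of the forbidden `r`-graph (`r ≥ 4`), copies as families of vertex classes, the bridge to
injective maps, the placement lemma in fresh blocks, and the role lemma.
-/

set_option autoImplicit false

namespace Pool.Agent.MP_038f7f_co.H95

open Finset

/-- heads: the roots and four more centres -/
abbrev Hd (r : ℕ) : Type := Fin r ⊕ Fin 4

/-- classes: centres, rows, two extra vertices and six filler classes -/
abbrev Cl (r : ℕ) : Type := (Hd r ⊕ Hd r) ⊕ Fin 8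

/-- links -/
abbrev Lj (r : ℕ) : Type := Fin r ⊕ Fin 5

/-- filler size -/
def ww (r : ℕ) : ℕ := r ^ 3 * (r + 4)

/-- class sizes -/
def sz (r : ℕ) : Cl r → ℕ
  | .inl (.inl _) => 1
  | .inl (.inr _) => r + 3
  | .inr j => if j.val < 2 then 1 else if j.val = 2 then 4 * ww r else ww r

variable {r : ℕ}

/-- centre class -/
abbrev cen (h : Hd r) : Cl r := .inl (.inl h)

/-- row class -/
abbrev row (h : Hd r) : Cl r := .inl (.inr h)

/-- head of a link -/
def hd : Lj r → Hd r
  | .inl i => .inl i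
  | .inr g => .inr (![0, 2, 3, 1, 1] g)

/-- target of a small link -/
def tg (r : ℕ) : Fin 5 → Cl r := ![cen (.inr 2), cen (.inr 3), cen (.inr 2), .inr 0, .inr 1]

/-- filler class of a link -/
def fl : Lj r → Fin 8
  | .inl _ => 2
  | .inr g => ![3, 4, 5, 6, 7] g

/-- dependent classes of a link -/
def Dep : Lj r → Cl r → Prop
  | .inl i, a => (∃ i', i' ≠ i ∧ a = cen (.inl i')) ∨ a = cen (.inr 0) ∨ a = cen (.inr 1)
  | .inr g, a => a = tg r g

/-- row classes in the family of a link -/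
def Rw : Lj r → Cl r → Prop
  | .inl _, a => ∃ i', a = row (.inl i')
  | .inr g, a => a = row (hd (.inr g))

/-- family of a link -/
def Fam (j : Lj r) (a : Cl r) : Prop := a = cen (hd j) ∨ Dep j a ∨ a = .inr (fl j) ∨ Rw j a

variable {V : Type}

/-- the core condition of an edge -/
def Core (A : Cl r → Finset V) (j : Lj r) (e : Finset V) : Prop :=
  (∃ p ∈ e, ∃ p' ∈ e, p ≠ p' ∧ p ∈ A (row (hd j)) ∧ p' ∈ A (row (hd j))) ∨
    ∃ x ∈ e, ∃ p ∈ e, ∃ t ∈ e, x ∈ A (cen (hd j)) ∧ p ∈ A (row (hd j)) ∧ ∃ a, Dep j a ∧ t ∈ A a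

/-- the edge pattern -/
def Ed (A : Cl r → Finset V) (e : Finset V) : Prop :=
  (∀ v ∈ e, ∃ i, v ∈ A (cen (.inl i))) ∨ ∃ j, (∀ v ∈ e, ∃ a, Fam j a ∧ v ∈ A a) ∧ Core A j e

/-- classes of the right sizes, pairwise disjoint -/
structure Pl (A : Cl r → Finset V) : Prop where
  card : ∀ a, (A a).card = sz r a
  disj : ∀ a b, a ≠ b → Disjoint (A a) (A b)

/-- a copy of the pattern -/
structure IsCopy (E : Finset V → Prop) (A : Cl r → Finset V) : Prop extends Pl A where
  edge : ∀ e, e.card = r → Ed A e → E e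

theorem Pl.nm {A : Cl r → Finset V} (h : Pl A) {a b : Cl r} {p : V} (hp : p ∈ A a) (hab : a ≠ b) :
    p ∉ A b := Finset.disjoint_left.1 (h.disj a b hab) hp

theorem Pl.ne {A : Cl r → Finset V} (h : Pl A) {a b : Cl r} {p q : V} (hp : p ∈ A a)
    (hq : q ∈ A b) (hab : a ≠ b) : p ≠ q := fun e => h.nm hp hab (e ▸ hq)

theorem Pl.one {A : Cl r → Finset V} (h : Pl A) {a : Cl r} (ha : sz r a = 1) {p q : V}
    (hp : p ∈ A a) (hq : q ∈ A a) : p = q :=
  Finset.card_le_one.1 ((h.card a).trans ha).le p hp q hq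

theorem Rw_hd (j : Lj r) : Rw j (row (hd j)) := by
  rcases j with i | g
  · exact ⟨i, rfl⟩
  · rfl

theorem Dep_ne {j : Lj r} {a : Cl r} (h : Dep j a) : a ≠ cen (hd j) ∧ ∀ x, a ≠ row x := by
  rcases j with i | g
  · rcases h with ⟨i', h1, rfl⟩ | rfl | rfl <;> simp [hd, *]
  · have h' : a = tg r g := h
    subst h'
    fin_cases g <;> simp [tg, hd]

theorem ww_le (j : Lj r) : ww r ≤ sz r (.inr (fl j)) := by
  rcases j with i | g
  · simp [sz, fl]; omega
  · fin_cases g <;> simp [sz, fl]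

theorem ww_big (hr : 4 ≤ r) : 16 * (r * (r + 4)) ≤ ww r := by
  have : 16 ≤ r ^ 2 := by nlinarith
  calc 16 * (r * (r + 4)) ≤ r ^ 2 * (r * (r + 4)) := Nat.mul_le_mul_right _ this
    _ = ww r := by unfold ww; ring

theorem sz_pos (hr : 4 ≤ r) (a : Cl r) : 0 < sz r a := by
  have := ww_big hr
  have h2 : 0 < r * (r + 4) := by positivity
  rcases a with (h | h) | j
  · simp [sz]
  · simp [sz]
  · simp only [sz]; split_ifs <;> omega

theorem sz_le (hr : 4 ≤ r) (a : Cl r) : sz r a ≤ 4 * ww r := by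
  have := ww_big hr
  have h2 : r + 4 ≤ r * (r + 4) := Nat.le_mul_of_pos_left _ (by omega)
  rcases a with (h | h) | j
  · simp only [sz]; omega
  · simp only [sz]; omega
  · simp only [sz]; split_ifs <;> omega

theorem Ed_map {W : Type} (f : W ↪ V) (A : Cl r → Finset W) (e : Finset W) :
    Ed (fun a => (A a).map f) (e.map f) ↔ Ed A e := by
  simp [Ed, Core]

theorem Ed_sub {A : Cl r → Finset V} {e : Finset V} (h : Ed A e) : ∀ v ∈ e, ∃ a, v ∈ A a := by
  intro v hv
  rcases h with h | ⟨j, h, -⟩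
  · obtain ⟨i, hi⟩ := h v hv
    exact ⟨_, hi⟩
  · obtain ⟨a, -, ha⟩ := h v hv
    exact ⟨a, ha⟩

theorem exists_base (r : ℕ) : ∃ (m : ℕ) (A : Cl r → Finset (Fin m)), Pl A ∧ ∀ v, ∃ a, v ∈ A a := by
  obtain ⟨A, h1, h2⟩ := H77.place_aux (V := Fin (∑ a, sz r a)) (univ : Finset (Cl r)) (sz r)
    (fun _ => ()) (fun _ => univ) (fun i j h => absurd rfl h) (fun _ => by simp)
  refine ⟨_, A, ⟨fun a => (h1 a (mem_univ _)).2, fun a b => h2 a (mem_univ _) b (mem_univ _)⟩,
    fun v => ?_⟩
  have : univ.biUnion A = univ := by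
    apply Finset.eq_univ_of_card
    rw [Finset.card_biUnion (fun a _ b _ h => h2 a (mem_univ _) b (mem_univ _) h),
      Fintype.card_fin]
    exact Finset.sum_congr rfl (fun a _ => (h1 a (mem_univ _)).2)
  have hv : v ∈ univ.biUnion A := this ▸ mem_univ v
  simpa using hv

theorem contains_iff {W : Type} {A0 : Cl r → Finset W} (h0 : Pl A0) (hc : ∀ v, ∃ a, v ∈ A0 a)
    (E : Finset V → Prop) :
    (∃ f : W ↪ V, ∀ e : Finset W, e.card = r → Ed A0 e → E (e.map f)) ↔
      ∃ A : Cl r → Finset V, IsCopy E A := by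
  classical
  constructor
  · rintro ⟨f, hf⟩
    refine ⟨fun a => (A0 a).map f, ⟨fun a => by rw [Finset.card_map, h0.card],
      fun a b hab => (Finset.disjoint_map f).2 (h0.disj a b hab)⟩, fun e he hE => ?_⟩
    obtain ⟨e0, -, rfl⟩ := Finset.subset_map_iff.1 (show e ⊆ (e.preimage f
      f.injective.injOn).map f from fun v hv => by
        obtain ⟨a, ha⟩ := Ed_sub hE v hv
        obtain ⟨w, -, rfl⟩ := Finset.mem_map.1 ha
        exact Finset.mem_map_of_mem f (Finset.mem_preimage.2 hv))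
    exact hf e0 (by simpa using he) ((Ed_map f A0 e0).1 hE)
  · rintro ⟨A, hA⟩
    choose c hc using hc
    let φ : ∀ a, A0 a ≃ A a := fun a =>
      Finset.equivOfCardEq ((h0.card a).trans (hA.card a).symm)
    have key : ∀ a v (hv : v ∈ A0 a), (φ (c v) ⟨v, hc v⟩ : V) = φ a ⟨v, hv⟩ := by
      intro a v hv
      have : c v = a := by
        by_contra hn
        exact h0.nm (hc v) hn hv
      subst this
      rfl
    have hinj : Function.Injective (fun v => (φ (c v) ⟨v, hc v⟩ : V)) := by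
      intro v v' h
      have h' : (φ (c v) ⟨v, hc v⟩ : V) = φ (c v') ⟨v', hc v'⟩ := h
      have e : c v = c v' := by
        by_contra hn
        exact hA.toPl.ne (φ (c v) ⟨v, hc v⟩).2 (φ (c v') ⟨v', hc v'⟩).2 hn h'
      rw [key (c v') v (e ▸ hc v)] at h'
      exact congrArg Subtype.val ((φ (c v')).injective (Subtype.ext h'))
    refine ⟨⟨_, hinj⟩, fun e he hE => hA.edge _ (by simpa using he) ?_⟩
    have : A = fun a => (A0 a).map ⟨_, hinj⟩ := by
      funext a
      symm
      apply Finset.eq_of_subset_of_card_le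
      · intro v hv
        obtain ⟨w, hw, rfl⟩ := Finset.mem_map.1 hv
        have := (φ a ⟨w, hw⟩).2
        rw [← key a w hw] at this
        exact this
      · rw [Finset.card_map, h0.card, hA.card]
    exact (congrArg (fun B => Ed B (e.map ⟨_, hinj⟩)) this).mpr ((Ed_map _ A0 e).2 hE)

variable [DecidableEq V]

/-- placement into given containers and fresh blocks -/
theorem fold (hr : 4 ≤ r) {K Λ : Type} [Fintype K] [DecidableEq K] [DecidableEq Λ] (β : V → Λ)
    (U : Finset V) (hU : ∀ v ∈ U, (U.filter (fun s => β s = β v)).card = r + 4)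
    (C : K → Finset V) (hC : ∀ i j, i ≠ j → Disjoint (C i) (C j)) (pl : Cl r → K ⊕ Bool)
    (hs : ∀ c, ∑ a ∈ univ.filter (fun a => pl a = .inl c), sz r a ≤ (C c).card)
    (hrow : ∀ a, pl a = .inr false → sz r a ≤ r + 4)
    (hL : ∑ c, (C c).card + (2 * r + 16) * (4 * ww r) ≤ (U.image β).card) :
    ∃ A : Cl r → Finset V, Pl A ∧ (∀ a c, pl a = .inl c → A a ⊆ C c) ∧
      (∀ a b, pl a = .inr b → A a ⊆ U) ∧
      ∀ a, pl a = .inr false → ∀ p ∈ A a, ∀ p' ∈ A a, β p = β p' := by
  have hw := sz_le hr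
  obtain ⟨Lb, l1, l2⟩ := H77.place_aux (V := Λ) (univ : Finset (Cl r))
    (fun a => if pl a = .inr false then 1 else 4 * ww r) (fun _ => ())
    (fun _ => U.image β \ (univ.biUnion C).image β) (fun i j h => absurd rfl h) (fun u => by
      cases u
      have h1 := Finset.le_card_sdiff ((univ.biUnion C).image β) (U.image β)
      have h2 : ((univ.biUnion C).image β).card ≤ ∑ c, (C c).card :=
        Finset.card_image_le.trans Finset.card_biUnion_le
      have h3 : ∑ a ∈ univ.filter (fun _ : Cl r => () = ()),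
          (if pl a = .inr false then 1 else 4 * ww r) ≤ (2 * r + 16) * (4 * ww r) := by
        refine (Finset.sum_le_card_nsmul _ _ (4 * ww r) (fun a _ => ?_)).trans ?_
        · have := hw (cen (.inr 0))
          simp only [sz] at this
          split_ifs <;> omega
        · simp only [Finset.filter_true, Finset.card_univ, Fintype.card_sum, Fintype.card_fin,
            smul_eq_mul]
          exact Nat.mul_le_mul_right _ (by omega)
      exact h3.trans (by omega))
  let C' : K ⊕ Cl r → Finset V := Sum.elim C (fun a => U.filter (fun s => β s ∈ Lb a))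
  let pl' : Cl r → K ⊕ Cl r := fun a => Sum.elim .inl (fun _ => .inr a) (pl a)
  have mix : ∀ c a, Disjoint (C' (.inl c)) (C' (.inr a)) := by
    intro c a
    refine Finset.disjoint_left.2 (fun v hv hv' => ?_)
    have := (Finset.mem_sdiff.1 ((l1 a (mem_univ _)).1 (Finset.mem_filter.1 hv').2)).2
    exact this (Finset.mem_image_of_mem _ (Finset.mem_biUnion.2 ⟨c, mem_univ _, hv⟩))
  obtain ⟨A, a1, a2⟩ := H77.place_aux (univ : Finset (Cl r)) (sz r) pl' C' (by
    rintro (c | a) (c' | a') h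
    · exact hC c c' (fun e => h (by rw [e]))
    · exact mix c a'
    · exact (mix c' a).symm
    · refine Finset.disjoint_left.2 (fun v hv hv' => ?_)
      exact Finset.disjoint_left.1 (l2 a (mem_univ _) a' (mem_univ _) (fun e => h (by rw [e])))
        (Finset.mem_filter.1 hv).2 (Finset.mem_filter.1 hv').2) (by
    rintro (c | a)
    · refine le_trans (le_of_eq (Finset.sum_congr (Finset.filter_congr (fun a _ => ?_))
        (fun _ _ => rfl))) (hs c)
      rcases h : pl a with c' | b <;> simp [pl', h]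
    · by_cases hb : ∃ b, pl a = .inr b
      · have h1 : univ.filter (fun a' => pl' a' = .inr a) ⊆ {a} := by
          intro a' ha'
          have := (Finset.mem_filter.1 ha').2
          rcases h : pl a' with c' | b <;> simp_all [pl']
        refine (Finset.sum_le_sum_of_subset h1).trans ?_
        rw [Finset.sum_singleton]
        have h2 := l1 a (mem_univ _)
        by_cases hf : pl a = .inr false
        · rw [if_pos hf] at h2
          obtain ⟨b, hb⟩ := Finset.card_eq_one.1 h2.2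
          obtain ⟨v, hv, rfl⟩ := Finset.mem_image.1 (Finset.mem_sdiff.1
            (h2.1 (hb ▸ Finset.mem_singleton_self b))).1
          have := hU v hv
          simp only [C', Sum.elim_inr, hb, Finset.mem_singleton]
          rw [this]
          exact hrow a hf
        · rw [if_neg hf] at h2
          refine (hw a).trans (h2.2.symm.le.trans (le_trans (Finset.card_le_card ?_)
            (Finset.card_image_le (f := β))))
          intro b hb
          obtain ⟨v, hv, rfl⟩ := Finset.mem_image.1 (Finset.mem_sdiff.1 (h2.1 hb)).1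
          exact Finset.mem_image_of_mem _ (Finset.mem_filter.2 ⟨hv, hb⟩)
      · have h1 : univ.filter (fun a' => pl' a' = .inr a) = ∅ := by
          refine Finset.filter_eq_empty_iff.2 (fun a' _ ha' => hb ?_)
          rcases h : pl a' with c' | b
          · simp [pl', h] at ha'
          · simp only [pl', h, Sum.elim_inr, Sum.inr.injEq] at ha'
            exact ⟨b, ha' ▸ h⟩
        simp [h1])
  have hin : ∀ a b, pl a = .inr b → A a ⊆ U.filter (fun s => β s ∈ Lb a) := by
    intro a b h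
    have := (a1 a (mem_univ _)).1
    simpa [pl', h, C'] using this
  refine ⟨A, ⟨fun a => (a1 a (mem_univ _)).2, fun a b => a2 a (mem_univ _) b (mem_univ _)⟩,
    fun a c h => ?_, fun a b h => (hin a b h).trans (Finset.filter_subset _ _),
    fun a h p hp p' hp' => ?_⟩
  · have := (a1 a (mem_univ _)).1
    simpa [pl', h, C'] using this
  · have h2 := (l1 a (mem_univ _)).2
    rw [if_pos h] at h2
    exact Finset.card_le_one.1 h2.le _ (Finset.mem_filter.1 (hin a _ h hp)).2 _
      (Finset.mem_filter.1 (hin a _ h hp')).2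

/-- a saturated `r`-graph -/
structure Hyp (r : ℕ) (G : Finset (Finset V)) : Prop where
  card : ∀ e ∈ G, e.card = r
  free : ∀ A : Cl r → Finset V, ¬IsCopy (fun e => e ∈ G) A
  sat : ∀ X, X.card = r → X ∉ G → ∃ A : Cl r → Finset V, IsCopy (fun e => e ∈ insert X G) A

/-- the second role: roots with rows and a filler class -/
structure RB (r : ℕ) (G : Finset (Finset V)) (X : Finset V) (O : V → Finset V) (W : Finset V) :
    Prop where
  cO : ∀ t ∈ X, (O t).card = r + 3
  cW : W.card = 4 * ww r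
  oX : ∀ t ∈ X, ∀ s ∈ O t, s ∉ X
  oo : ∀ t ∈ X, ∀ t' ∈ X, ∀ s ∈ O t, s ∈ O t' → t = t'
  wX : ∀ s ∈ W, s ∉ X
  wO : ∀ s ∈ W, ∀ t ∈ X, s ∉ O t
  ed : ∀ e, e.card = r → (∀ v ∈ e, v ∈ X ∨ v ∈ W ∨ ∃ t ∈ X, v ∈ O t) → ∀ t ∈ X, ∀ p ∈ e, p ∈ O t →
    ((∃ p' ∈ e, p ≠ p' ∧ p' ∈ O t) ∨ (t ∈ e ∧ ∃ t' ∈ e, t' ∈ X ∧ t' ≠ t)) → e ∈ G

variable [Fintype V]

/-- neighbourhood of a set -/
def N (G : Finset (Finset V)) (Y : Finset V) : Finset V :=
  univ.filter (fun s => s ∉ Y ∧ insert s Y ∈ G)

theorem mem_N {G : Finset (Finset V)} {Y : Finset V} {s : V} :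
    s ∈ N G Y ↔ s ∉ Y ∧ insert s Y ∈ G := by simp [N]

theorem role (hr : 4 ≤ r) {G : Finset (Finset V)} (h : Hyp r G) {X : Finset V} (hX : X.card = r)
    (hn : X ∉ G) :
    ((∃ s, s ∉ X ∧ ∀ y ∈ X, insert s (X.erase y) ∈ G) ∧
      ∃ y ∈ X, ww r ≤ (N G (X.erase y)).card + r) ∨ ∃ O W, RB r G X O W := by
  obtain ⟨A, hA⟩ := h.sat X hX hn
  have ed : ∀ e, e.card = r → Ed A e → (∃ s ∈ e, s ∉ X) → e ∈ G := by
    rintro e he hE ⟨s, hs, hs'⟩
    exact (Finset.mem_insert.1 (hA.edge e he hE)).resolve_left (fun e' => hs' (e' ▸ hs))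
  have hE : Ed A X := by
    by_contra hc
    exact h.free A ⟨hA.toPl, fun e he hE =>
      (Finset.mem_insert.1 (hA.edge e he hE)).resolve_left (fun e' => hc (e' ▸ hE))⟩
  have sw : ∀ j s y, (∀ v ∈ X, ∃ a, Fam j a ∧ v ∈ A a) → s ∉ X → y ∈ X →
      (∃ a, Fam j a ∧ s ∈ A a) → Core A j (insert s (X.erase y)) → insert s (X.erase y) ∈ G := by
    intro j s y hF hs hy hs' hc
    refine ed _ ?_ (Or.inr ⟨j, fun v hv => ?_, hc⟩) ⟨s, Finset.mem_insert_self _ _, hs⟩
    · rw [Finset.card_insert_of_notMem (fun e => hs (Finset.mem_of_mem_erase e)),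
        Finset.card_erase_of_mem hy]
      omega
    · rcases Finset.mem_insert.1 hv with rfl | hv
      · exact hs'
      · exact hF v (Finset.mem_of_mem_erase hv)
  rcases hE with hE | ⟨j, hF, hc⟩
  · have : Nonempty (Fin r) := ⟨⟨0, by omega⟩⟩
    choose! ix hix using hE
    have inj : ∀ t ∈ X, ∀ t' ∈ X, ix t = ix t' → t = t' := fun t ht t' ht' e =>
      hA.toPl.one rfl (hix t ht) (e ▸ hix t' ht')
    refine Or.inr ⟨fun t => A (row (.inl (ix t))), A (.inr 2), fun t _ => hA.card _,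
      by rw [hA.card]; simp [sz], fun t _ s hs hs' => hA.toPl.nm hs (by simp) (hix s hs'),
      fun t ht t' ht' s hs hs' => inj t ht t' ht' ?_,
      fun s hs hs' => hA.toPl.nm hs (by simp) (hix s hs'),
      fun s hs t _ => hA.toPl.nm hs (by simp), fun e he hs t ht p hp hp' hc => ?_⟩
    · by_contra hn
      exact hA.toPl.nm hs (by simpa using hn) hs'
    · refine ed e he (Or.inr ⟨.inl (ix t), fun v hv => ?_, ?_⟩)
        ⟨p, hp, fun hs' => hA.toPl.nm hp' (by simp) (hix p hs')⟩
      · rcases hs v hv with g | g | ⟨t', -, g⟩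
        · refine ⟨_, ?_, hix v g⟩
          by_cases e' : ix v = ix t
          · exact Or.inl (by rw [e']; rfl)
          · exact Or.inr (Or.inl (Or.inl ⟨_, e', rfl⟩))
        · exact ⟨_, Or.inr (Or.inr (Or.inl rfl)), g⟩
        · exact ⟨_, Or.inr (Or.inr (Or.inr ⟨_, rfl⟩)), g⟩
      · rcases hc with ⟨p', g1, g2, g3⟩ | ⟨g1, t', g2, g3, g4⟩
        · exact Or.inl ⟨p, hp, p', g1, g2, hp', g3⟩
        · exact Or.inr ⟨t, g1, p, hp, t', g2, hix t ht, hp', _,
            Or.inl ⟨_, fun e' => g4 (inj _ g3 _ ht e'), rfl⟩, hix t' g3⟩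
  · refine Or.inl ⟨?_, ?_⟩
    · obtain ⟨s, hs, hs'⟩ := Finset.exists_mem_notMem_of_card_lt_card
        (s := X) (t := A (row (hd j))) (by rw [hA.card, hX]; simp [sz])
      refine ⟨s, hs', fun y hy => sw j s y hF hs' hy ⟨_, Or.inr (Or.inr (Or.inr (Rw_hd j))), hs⟩ ?_⟩
      have two : ∀ p ∈ X, p ∈ A (row (hd j)) → p ≠ y → Core A j (insert s (X.erase y)) :=
        fun p hp hp' hpy => Or.inl ⟨s, by simp, p, by simp [hp, hpy],
          fun e => hs' (e ▸ hp), hs, hp'⟩
      rcases hc with ⟨p, hp, p', hp', g1, g2, g3⟩ | ⟨x, hx, p, hp, t, ht, g1, g2, a, g3, g4⟩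
      · by_cases e : p = y
        · exact two p' hp' g3 (fun e' => g1 (e.trans e'.symm))
        · exact two p hp g2 e
      · by_cases e : p = y
        · subst e
          exact Or.inr ⟨x, by simp [hx, hA.toPl.ne g1 g2 (by simp)], s, by simp, t,
            by simp [ht, hA.toPl.ne g4 g2 ((Dep_ne g3).2 _)], g1, hs, a, g3, g4⟩
        · exact two p hp g2 e
    · obtain ⟨y, hy, hc'⟩ : ∃ y ∈ X, ∀ s, Core A j (insert s (X.erase y)) := by
        rcases hc with ⟨p, hp, p', hp', g1, g2, g3⟩ | ⟨x, hx, p, hp, t, ht, g⟩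
        · obtain ⟨y, hy, hy'⟩ := Finset.exists_mem_notMem_of_card_lt_card
            (s := {p, p'}) (t := X) (lt_of_le_of_lt Finset.card_le_two (by omega))
          simp only [Finset.mem_insert, Finset.mem_singleton, not_or] at hy'
          exact ⟨y, hy, fun s => Or.inl ⟨p, by simp [hp, Ne.symm hy'.1], p',
            by simp [hp', Ne.symm hy'.2], g1, g2, g3⟩⟩
        · obtain ⟨y, hy, hy'⟩ := Finset.exists_mem_notMem_of_card_lt_card
            (s := {x, p, t}) (t := X) (lt_of_le_of_lt Finset.card_le_three (by omega))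
          simp only [Finset.mem_insert, Finset.mem_singleton, not_or] at hy'
          exact ⟨y, hy, fun s => Or.inr ⟨x, by simp [hx, Ne.symm hy'.1], p,
            by simp [hp, Ne.symm hy'.2.1], t, by simp [ht, Ne.symm hy'.2.2], g⟩⟩
      refine ⟨y, hy, ?_⟩
      have h1 : A (.inr (fl j)) \ X ⊆ N G (X.erase y) := by
        intro s hs
        obtain ⟨g1, g2⟩ := Finset.mem_sdiff.1 hs
        exact mem_N.2 ⟨fun e => g2 (Finset.mem_of_mem_erase e),
          sw j s y hF g2 hy ⟨_, Or.inr (Or.inr (Or.inl rfl)), g1⟩ (hc' s)⟩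
      have h2 := Finset.card_le_card h1
      have h3 := Finset.le_card_sdiff X (A (.inr (fl j)))
      have h4 := ww_le j
      rw [hA.card] at h3
      omega

end Pool.Agent.MP_038f7f_co.H95
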