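import Mathlib
import Pool.Agent.MP_038f7f_co.h95.Defs

/-!
The block construction: `r`-sets with two vertices in one block.
-/

set_option autoImplicit false

namespace Pool.Agent.MP_038f7f_co.H95

open Finset

variable {r : ℕ} {V Λ : Type} [Fintype V] [DecidableEq V] [DecidableEq Λ]

/-- number of blocks that is enough for every placement -/
def LL (r : ℕ) : ℕ := 4 * ww r + (2 * r + 16) * (4 * ww r)

theorem dc {d : ℕ} (hd : d + 1 = r) (f : Finset V → V → ℕ) :
    ∑ e ∈ powersetCard r univ, ∑ x ∈ e, f e x =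
      ∑ Y ∈ powersetCard d univ, ∑ s ∈ Yᶜ, f (insert s Y) s := by
  rw [Finset.sum_sigma', Finset.sum_sigma']
  refine Finset.sum_nbij' (fun z => ⟨z.1.erase z.2, z.2⟩) (fun z => ⟨insert z.2 z.1, z.2⟩)
    ?_ ?_ ?_ ?_ ?_
  · rintro ⟨e, x⟩ h
    simp only [Finset.mem_sigma, Finset.mem_powersetCard_univ] at h ⊢
    exact ⟨by rw [Finset.card_erase_of_mem h.2]; omega, by simp⟩
  · rintro ⟨Y, s⟩ h
    simp only [Finset.mem_sigma, Finset.mem_powersetCard_univ, Finset.mem_compl] at h ⊢
    exact ⟨by rw [Finset.card_insert_of_notMem h.2]; omega, by simp⟩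
  · rintro ⟨e, x⟩ h
    simp only [Finset.mem_sigma] at h
    simp [Finset.insert_erase h.2]
  · rintro ⟨Y, s⟩ h
    simp only [Finset.mem_sigma, Finset.mem_compl] at h
    simp [Finset.erase_insert h.2]
  · rintro ⟨e, x⟩ h
    simp only [Finset.mem_sigma] at h
    simp [Finset.insert_erase h.2]

/-- the block hypergraph -/
def G0 (r : ℕ) (β : V → Λ) : Finset (Finset V) :=
  (powersetCard r univ).filter (fun e => ∃ p ∈ e, ∃ p' ∈ e, p ≠ p' ∧ β p = β p')

theorem mem_G0 {β : V → Λ} {e : Finset V} :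
    e ∈ G0 r β ↔ e.card = r ∧ ∃ p ∈ e, ∃ p' ∈ e, p ≠ p' ∧ β p = β p' := by simp [G0]

theorem G0_card (hr : 4 ≤ r) (β : V → Λ)
    (hβ : ∀ b, (univ.filter (fun s => β s = b)).card ≤ r + 4) :
    2 * (G0 r β).card ≤ (r - 1) * (r + 3) * (Fintype.card V).choose (r - 1) := by
  have h := dc (V := V) (show r - 1 + 1 = r by omega)
    (fun e x => if ∃ p ∈ e, p ≠ x ∧ β p = β x then 1 else 0)
  have h1 : ∑ e ∈ G0 r β, 2 ≤ ∑ e ∈ powersetCard r (univ : Finset V), ∑ x ∈ e,
      if ∃ p ∈ e, p ≠ x ∧ β p = β x then 1 else 0 := by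
    refine le_trans (Finset.sum_le_sum (fun e he => ?_))
      (Finset.sum_le_sum_of_subset (Finset.filter_subset _ _))
    obtain ⟨-, p, hp, p', hp', g1, g2⟩ := mem_G0.1 he
    rw [← Finset.card_filter]
    exact Finset.one_lt_card.2 ⟨p, Finset.mem_filter.2 ⟨hp, p', hp', g1.symm, g2.symm⟩, p',
      Finset.mem_filter.2 ⟨hp', p, hp, g1, g2⟩, g1⟩
  have h2 : ∑ Y ∈ powersetCard (r - 1) (univ : Finset V), (∑ s ∈ Yᶜ,
      if ∃ p ∈ insert s Y, p ≠ s ∧ β p = β s then 1 else 0) ≤
      ∑ Y ∈ powersetCard (r - 1) (univ : Finset V), (r - 1) * (r + 3) := by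
    refine Finset.sum_le_sum (fun Y hY => ?_)
    rw [← Finset.card_filter]
    refine le_trans (Finset.card_le_card (t := Y.biUnion (fun p =>
      (univ.filter (fun s => β s = β p)).erase p)) (fun s hs => ?_)) ?_
    · obtain ⟨-, p, g1, g2, g3⟩ := Finset.mem_filter.1 hs
      exact Finset.mem_biUnion.2 ⟨p, (Finset.mem_insert.1 g1).resolve_left g2,
        by simp [g2.symm, g3]⟩
    · rw [← Finset.mem_powersetCard_univ.1 hY]
      refine Finset.card_biUnion_le_card_mul _ _ _ (fun p _ => ?_)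
      rw [Finset.card_erase_of_mem (by simp)]
      have := hβ (β p)
      omega
  simp only [Finset.sum_const, smul_eq_mul, Finset.card_powersetCard, Finset.card_univ] at h1 h2
  rw [mul_comm 2, mul_comm _ (Nat.choose _ _)]
  exact h1.trans (h.le.trans h2)

theorem fillT (β : V → Λ) (hβ : ∀ b, (univ.filter (fun s => β s = b)).card ≤ r + 4)
    (W : Finset V) (hW : r * (r + 4) < W.card) (d : ℕ) : ∀ S : Finset V, S.card + d = r →
    Set.InjOn β S → ∃ e : Finset V, S ⊆ e ∧ e ⊆ S ∪ W ∧ e.card = r ∧ Set.InjOn β e := by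
  induction d with
  | zero => exact fun S h1 h2 => ⟨S, subset_rfl, Finset.subset_union_left, h1, h2⟩
  | succ d ih =>
    intro S h1 h2
    obtain ⟨v, hv, hv'⟩ := Finset.exists_mem_notMem_of_card_lt_card (t := W)
      (s := S.biUnion (fun p => univ.filter (fun s => β s = β p))) (lt_of_le_of_lt
        ((Finset.card_biUnion_le_card_mul _ _ _ (fun p _ => hβ (β p))).trans
          (Nat.mul_le_mul_right _ (by omega))) hW)
    simp only [Finset.mem_biUnion, Finset.mem_filter, Finset.mem_univ, true_and, not_exists,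
      not_and] at hv'
    have hS : v ∉ S := fun h => hv' v h rfl
    obtain ⟨e, e1, e2, e3, e4⟩ := ih (insert v S)
      (by rw [Finset.card_insert_of_notMem hS]; omega) (by
        rw [Finset.coe_insert, Set.injOn_insert (by simpa using hS)]
        exact ⟨h2, fun ⟨p, hp, e⟩ => hv' p hp e.symm⟩)
    refine ⟨e, (Finset.subset_insert _ _).trans e1, e2.trans ?_, e3, e4⟩
    intro t ht
    simp only [Finset.mem_union, Finset.mem_insert] at ht ⊢
    rcases ht with (rfl | g) | g
    exacts [Or.inr hv, Or.inl g, Or.inr g]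

theorem hd_surj (h : Hd r) : ∃ j, hd j = h := by
  rcases h with i | g
  · exact ⟨.inl i, rfl⟩
  · fin_cases g
    exacts [⟨.inr 0, rfl⟩, ⟨.inr 3, rfl⟩, ⟨.inr 1, rfl⟩, ⟨.inr 2, rfl⟩]

theorem G0_free (hr : 4 ≤ r) (β : V → Λ)
    (hβ : ∀ b, (univ.filter (fun s => β s = b)).card ≤ r + 4) (A : Cl r → Finset V) :
    ¬IsCopy (fun e => e ∈ G0 r β) A := by
  intro h
  have rule : ∀ j (S : Finset V), S.card ≤ 3 → (∀ v ∈ S, ∃ a, Fam j a ∧ v ∈ A a) →
      (∀ e, S ⊆ e → Core A j e) → ¬Set.InjOn β S := by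
    intro j S h1 h2 h3 h4
    obtain ⟨e, e1, e2, e3, e4⟩ := fillT β hβ (A (.inr (fl j))) (by
      have := ww_le j
      have := ww_big hr
      have : 0 < r * (r + 4) := by positivity
      rw [h.card]; omega) (r - S.card) S (by omega) h4
    obtain ⟨-, p, hp, p', hp', g1, g2⟩ := mem_G0.1 (h.edge e e3 (Or.inr ⟨j, fun v hv => by
      rcases Finset.mem_union.1 (e2 hv) with g | g
      · exact h2 v g
      · exact ⟨_, Or.inr (Or.inr (Or.inl rfl)), g⟩, h3 e e1⟩))
    exact g1 (e4 hp hp' g2)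
  have hrow : ∀ x, ∀ p ∈ A (row x), ∀ q ∈ A (row x), β p = β q := by
    intro x p hp q hq
    obtain ⟨j, rfl⟩ := hd_surj x
    by_contra hn
    refine rule j {p, q} (Finset.card_le_two.trans (by omega)) (fun v hv => ⟨_,
      Or.inr (Or.inr (Or.inr (Rw_hd j))), by
        rcases Finset.mem_insert.1 hv with rfl | hv
        · exact hp
        · rwa [Finset.mem_singleton.1 hv]⟩)
      (fun e he => Or.inl ⟨p, he (by simp), q, he (by simp), fun e => hn (by rw [e]), hp, hq⟩) ?_
    intro a ha b hb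
    simp only [Finset.coe_insert, Finset.coe_singleton, Set.mem_insert_iff,
      Set.mem_singleton_iff] at ha hb
    grind
  have hne : ∀ a, (A a).Nonempty := fun a => Finset.card_pos.1 (by rw [h.card]; exact sz_pos hr a)
  choose ρ hρ using hne
  have rul : ∀ j a, Dep j a → β (ρ (cen (hd j))) ≠ β (ρ (row (hd j))) →
      β (ρ a) = β (ρ (cen (hd j))) ∨ β (ρ a) = β (ρ (row (hd j))) := by
    intro j a ha hn
    by_contra hc
    refine rule j {ρ (cen (hd j)), ρ (row (hd j)), ρ a} Finset.card_le_three (fun v hv => ?_)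
      (fun e he => Or.inr ⟨_, he (by simp), _, he (by simp), _, he (by simp), hρ _, hρ _, a, ha,
        hρ a⟩) ?_
    · simp only [Finset.mem_insert, Finset.mem_singleton] at hv
      rcases hv with rfl | rfl | rfl
      exacts [⟨_, Or.inl rfl, hρ _⟩, ⟨_, Or.inr (Or.inr (Or.inr (Rw_hd j))), hρ _⟩,
        ⟨_, Or.inr (Or.inl ha), hρ _⟩]
    · intro a ha b hb
      simp only [Finset.coe_insert, Finset.coe_singleton, Set.mem_insert_iff,
        Set.mem_singleton_iff] at ha hb
      grind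
  have room : ∀ x s t, s ≠ t → s ∉ A (row x) → t ∉ A (row x) → β s = β (ρ (row x)) →
      β t = β (ρ (row x)) → False := by
    intro x s t hst hs ht e1 e2
    have hsub : insert s (insert t (A (row x))) ⊆ univ.filter (fun t => β t = β (ρ (row x))) := by
      intro w hw
      simp only [Finset.mem_insert] at hw
      simp only [Finset.mem_filter, Finset.mem_univ, true_and]
      rcases hw with rfl | rfl | hw
      exacts [e1, e2, hrow x w hw _ (hρ _)]
    have h3 := Finset.card_le_card hsub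
    rw [Finset.card_insert_of_notMem (by simp [hst, hs]), Finset.card_insert_of_notMem ht,
      h.card] at h3
    have := hβ (β (ρ (row x)))
    simp only [sz] at h3
    omega
  have room' : ∀ x a b, a ≠ b → a ≠ row x → b ≠ row x → β (ρ a) = β (ρ (row x)) →
      β (ρ b) = β (ρ (row x)) → False := fun x a b h1 h2 h3 =>
    room x _ _ (h.toPl.ne (hρ a) (hρ b) h1) (h.toPl.nm (hρ a) h2) (h.toPl.nm (hρ b) h3)
  have od : ∀ x y, x ≠ y → β (ρ (row x)) ≠ β (ρ (row y)) := by
    intro x y hxy e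
    obtain ⟨s, hs, t, ht, hst⟩ := Finset.one_lt_card.1
      (show 1 < (A (row y)).card by rw [h.card]; simp [sz])
    exact room x s t hst (h.toPl.nm hs (by simpa using hxy.symm))
      (h.toPl.nm ht (by simpa using hxy.symm))
      ((hrow y s hs _ (hρ _)).trans e.symm) ((hrow y t ht _ (hρ _)).trans e.symm)
  have ci : Function.Injective (fun x : Hd r => ρ (cen x)) := fun x y e => by
    by_contra hn
    exact h.toPl.ne (hρ (cen x)) (hρ (cen y)) (by simpa using hn) e
  obtain ⟨-, p, hp, p', hp', g1, g2⟩ := mem_G0.1 (h.edge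
    (univ.image (fun i : Fin r => ρ (cen (.inl i))))
    ((Finset.card_image_of_injective _ (ci.comp Sum.inl_injective)).trans (by simp))
    (Or.inl fun v hv => by
      obtain ⟨i, -, rfl⟩ := Finset.mem_image.1 hv
      exact ⟨i, hρ _⟩))
  obtain ⟨i, -, rfl⟩ := Finset.mem_image.1 hp
  obtain ⟨i', -, rfl⟩ := Finset.mem_image.1 hp'
  have hii : i ≠ i' := fun e => g1 (by rw [e])
  have hY : ∀ x, β (ρ (cen (.inl i))) ≠ β (ρ (row x)) := fun x e =>
    room' x (cen (.inl i)) (cen (.inl i')) (by simpa using hii) (by simp) (by simp) e (g2 ▸ e)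
  have low : ∀ a, Dep (.inl i) a → Dep (.inl i') a → β (ρ a) = β (ρ (cen (.inl i))) := by
    intro a a1 a2
    have k1 := rul _ a a1 (hY _)
    have k2 := rul _ a a2 (fun e => hY _ (g2.trans e))
    have k3 := od (.inl i) (.inl i') (by simpa using hii)
    simp only [hd] at k1 k2
    grind
  have hu := low _ (Or.inr (Or.inl rfl)) (Or.inr (Or.inl rfl))
  have hu' := low _ (Or.inr (Or.inr rfl)) (Or.inr (Or.inr rfl))
  have hvl : β (ρ (cen (.inr 2))) = β (ρ (cen (.inl i))) ∧
      β (ρ (cen (.inr 3))) = β (ρ (cen (.inl i))) := by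
    have k0 : β (ρ (cen (.inr 0))) ≠ β (ρ (row (.inr 0))) → β (ρ (cen (.inr 2))) =
      β (ρ (cen (.inr 0))) ∨ β (ρ (cen (.inr 2))) = β (ρ (row (.inr 0))) := rul (.inr 0) _ rfl
    have k1 : β (ρ (cen (.inr 2))) ≠ β (ρ (row (.inr 2))) → β (ρ (cen (.inr 3))) =
      β (ρ (cen (.inr 2))) ∨ β (ρ (cen (.inr 3))) = β (ρ (row (.inr 2))) := rul (.inr 1) _ rfl
    have k2 : β (ρ (cen (.inr 3))) ≠ β (ρ (row (.inr 3))) → β (ρ (cen (.inr 2))) =
      β (ρ (cen (.inr 3))) ∨ β (ρ (cen (.inr 2))) = β (ρ (row (.inr 3))) := rul (.inr 2) _ rfl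
    have o1 := od (.inr 0) (.inr 2) (by simp)
    have o2 := od (.inr 0) (.inr 3) (by simp)
    have o3 := od (.inr 2) (.inr 3) (by simp)
    have y1 := hY (.inr 0)
    have y2 := hY (.inr 2)
    have y3 := hY (.inr 3)
    have m := room' (.inr 0) (cen (.inr 2)) (cen (.inr 3)) (by simp) (by simp) (by simp)
    grind
  have hall : ∀ x, β (ρ (cen x)) = β (ρ (cen (.inl i))) := by
    rintro (x | x)
    · by_cases e1 : x = i
      · rw [e1]
      by_cases e2 : x = i'
      · rw [e2, g2]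
      exact low _ (Or.inl ⟨x, e1, rfl⟩) (Or.inl ⟨x, e2, rfl⟩)
    · fin_cases x
      exacts [hu, hu', hvl.1, hvl.2]
  have full : ∀ j : Fin 8, β (ρ (.inr j)) ≠ β (ρ (cen (.inl i))) := by
    intro j e
    have hsub : insert (ρ (.inr j)) (univ.image (fun x : Hd r => ρ (cen x))) ⊆
        univ.filter (fun t => β t = β (ρ (cen (.inl i)))) := by
      intro w hw
      rcases Finset.mem_insert.1 hw with rfl | hw
      · simp [e]
      · obtain ⟨x, -, rfl⟩ := Finset.mem_image.1 hw
        simp [hall x]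
    have h3 := (Finset.card_le_card hsub).trans (hβ _)
    rw [Finset.card_insert_of_notMem (fun hw => by
      obtain ⟨x, -, e⟩ := Finset.mem_image.1 hw
      exact h.toPl.ne (hρ _) (hρ _) (by simp) e), Finset.card_image_of_injective _ ci] at h3
    simp at h3
  have k3 : β (ρ (cen (.inr 1))) ≠ β (ρ (row (.inr 1))) → β (ρ (.inr 0)) =
    β (ρ (cen (.inr 1))) ∨ β (ρ (.inr 0)) = β (ρ (row (.inr 1))) := rul (.inr 3) _ rfl
  have k4 : β (ρ (cen (.inr 1))) ≠ β (ρ (row (.inr 1))) → β (ρ (.inr 1)) =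
    β (ρ (cen (.inr 1))) ∨ β (ρ (.inr 1)) = β (ρ (row (.inr 1))) := rul (.inr 4) _ rfl
  rw [hu'] at k3 k4
  exact room' (.inr 1) (.inr 0) (.inr 1) (by simp) (by simp) (by simp)
    ((k3 (hY _)).resolve_left (full 0)) ((k4 (hY _)).resolve_left (full 1))

theorem G0_sat (hr : 4 ≤ r) (β : V → Λ)
    (hβ : ∀ v, (univ.filter (fun s => β s = β v)).card = r + 4)
    (hL : LL r ≤ (univ.image β).card) (X : Finset V) (hX : X.card = r) (hn : X ∉ G0 r β) :
    ∃ A : Cl r → Finset V, IsCopy (fun e => e ∈ insert X (G0 r β)) A := by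
  have hw := ww_big hr
  have hw2 : r + 4 ≤ r * (r + 4) := Nat.le_mul_of_pos_left _ (by omega)
  have hXi : ∀ p ∈ X, ∀ p' ∈ X, β p = β p' → p = p' := fun p hp p' hp' e => by
    by_contra hc
    exact hn (mem_G0.2 ⟨hX, p, hp, p', hp', hc, e⟩)
  obtain ⟨Q, q1, q2⟩ := Finset.exists_subset_card_eq (s := univ.image β \ X.image β) (n := 4) (by
    have := Finset.le_card_sdiff (X.image β) (univ.image β)
    have := Finset.card_image_le (s := X) (f := β)
    unfold LL at hL
    omega)
  have q3 : ∀ g : Fin 4, ∃ v, β v = (Finset.equivFinOfCardEq q2).symm g := fun g => by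
    simpa using (Finset.mem_sdiff.1 (q1 ((Finset.equivFinOfCardEq q2).symm g).2)).1
  choose c4 hc4 using q3
  let c : Hd r → V := Sum.elim (fun i => (Finset.equivFinOfCardEq hX).symm i) c4
  have cX : ∀ i, c (.inl i) ∈ X := fun i => ((Finset.equivFinOfCardEq hX).symm i).2
  have mix : ∀ i g, β (c (.inl i)) ≠ β (c (.inr g)) := fun i g e =>
    (Finset.mem_sdiff.1 (q1 ((Finset.equivFinOfCardEq q2).symm g).2)).2
      (Finset.mem_image.2 ⟨_, cX i, e.trans (hc4 g)⟩)
  have ci : ∀ x y, β (c x) = β (c y) → x = y := by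
    rintro (i | g) (i' | g') e
    · rw [(Finset.equivFinOfCardEq hX).symm.injective (Subtype.ext (hXi _ (cX i) _ (cX i') e))]
    · exact absurd e (mix i g')
    · exact absurd e.symm (mix i' g)
    · rw [(Finset.equivFinOfCardEq q2).symm.injective
        (Subtype.ext ((hc4 g).symm.trans (e.trans (hc4 g'))))]
  let C : Hd r ⊕ Hd r → Finset V := Sum.elim (fun x => {c x})
    (fun x => (univ.filter (fun s => β s = β (c x))).erase (c x))
  have cC : ∀ k, (C k).card = sz r (.inl k) := by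
    rintro (x | x)
    · simp [C, sz]
    · simp only [C, Sum.elim_inr, sz]
      rw [Finset.card_erase_of_mem (by simp), hβ]
      rfl
  obtain ⟨A, a1, a2, -, -⟩ := fold hr β univ (fun v _ => hβ v) C (by
      rintro (x | x) (y | y) hxy <;> refine Finset.disjoint_left.2 (fun v hv hv' => ?_) <;>
        simp only [C, Sum.elim_inl, Sum.elim_inr, Finset.mem_singleton, Finset.mem_erase,
          Finset.mem_filter, Finset.mem_univ, true_and] at hv hv' <;> grind)
    (Sum.elim .inl (fun _ => .inr true)) (fun k => by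
      have : univ.filter (fun a : Cl r => Sum.elim (.inl : _ → (Hd r ⊕ Hd r) ⊕ Bool)
          (fun _ => .inr true) a = .inl k) = {.inl k} := by
        ext (a | a) <;> simp
      rw [this, Finset.sum_singleton, cC])
    (by rintro (a | a) <;> simp) (by
      have : ∑ k, (C k).card = (r + 4) * (r + 4) := by
        simp only [cC, Fintype.sum_sum_type, sz]
        simp
        ring
      have h2 : (r + 4) * (r + 4) = r * (r + 4) + 4 * (r + 4) := by ring
      unfold LL at hL
      omega)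
  have ac : ∀ x v, v ∈ A (cen x) → v = c x := fun x v hv => by
    simpa [C] using a2 _ (.inl x) rfl hv
  have ar : ∀ x v, v ∈ A (row x) → v ≠ c x ∧ β v = β (c x) := fun x v hv => by
    simpa [C] using a2 _ (.inr x) rfl hv
  refine ⟨A, a1, fun e he hE => Finset.mem_insert.2 ?_⟩
  rcases hE with hE | ⟨j, -, ⟨p, hp, p', hp', g1, g2, g3⟩ | ⟨x, hx, p, hp, -, -, g1, g2, -⟩⟩
  · refine Or.inl (Finset.eq_of_subset_of_card_le (fun v hv => ?_) (by omega))
    obtain ⟨i, hi⟩ := hE v hv
    exact ac _ v hi ▸ cX i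
  · exact Or.inr (mem_G0.2 ⟨he, p, hp, p', hp', g1, (ar _ p g2).2.trans (ar _ p' g3).2.symm⟩)
  · obtain rfl := ac _ x g1
    exact Or.inr (mem_G0.2 ⟨he, p, hp, _, hx, (ar _ p g2).1, (ar _ p g2).2⟩)

end Pool.Agent.MP_038f7f_co.H95
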