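import Mathlib
import Pool.Agent.MP_038f7f_co.h95.Upper
import Pool.Agent.MP_038f7f_co.h77.StepTwo

/-!
Many clean blocks force divisibility.
-/

set_option autoImplicit false

namespace Pool.Agent.MP_038f7f_co.H95

open Finset

variable {r : ℕ} {V Λ : Type} [Fintype V] [DecidableEq V] [DecidableEq Λ]
  {G : Finset (Finset V)} {β : V → Λ} {U : Finset V}

omit [Fintype V] in
theorem card_sw {X : Finset V} (hX : X.card = r) {s x : V} (hs : s ∉ X) (hx : x ∈ X) :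
    (insert s (X.erase x)).card = r := by
  have := Finset.card_pos.2 ⟨x, hx⟩
  rw [Finset.card_insert_of_notMem (fun e => hs (Finset.mem_of_mem_erase e)),
    Finset.card_erase_of_mem hx]
  omega

omit [Fintype V] in
theorem RB.sw (hr : 4 ≤ r) {X W : Finset V} {O : V → Finset V} (h : RB r G X O W)
    (hX : X.card = r) {t x s : V} (ht : t ∈ X) (hx : x ∈ X) (htx : t ≠ x) (hs : s ∈ O t) :
    insert s (X.erase x) ∈ G := by
  obtain ⟨y, hy, hy'⟩ := Finset.exists_mem_notMem_of_card_lt_card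
    (s := {t, x}) (t := X) (lt_of_le_of_lt Finset.card_le_two (by omega))
  simp only [Finset.mem_insert, Finset.mem_singleton, not_or] at hy'
  refine h.ed _ (card_sw hX (h.oX t ht s hs) hx) (fun v hv => ?_) t ht s (by simp) hs
    (Or.inr ⟨by simp [ht, htx], y, by simp [hy, hy'.2], hy, hy'.1⟩)
  rcases Finset.mem_insert.1 hv with rfl | hv
  · exact Or.inr (Or.inr ⟨t, ht, hs⟩)
  · exact Or.inl (Finset.mem_of_mem_erase hv)

/-- many clean blocks -/
structure Clean (r : ℕ) (G : Finset (Finset V)) (β : V → Λ) (U : Finset V) : Prop where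
  fib : ∀ v ∈ U, (U.filter (fun s => β s = β v)).card = r + 4
  cl : ∀ Y : Finset V, Y ⊆ U → Y.card + 1 = r → (∀ p ∈ Y, ∀ q ∈ Y, β p = β q → p = q) →
    ∀ s ∈ N G Y, s ∈ U ∧ ∃ y ∈ Y, β s = β y
  big : LL r ≤ (U.image β).card

theorem LL_ge (hr : 4 ≤ r) : r ≤ LL r := by
  have := ww_big hr
  have h2 : r + 4 ≤ r * (r + 4) := Nat.le_mul_of_pos_left _ (by omega)
  unfold LL
  omega

theorem serve (hr : 4 ≤ r) (h : Hyp r G) (hc : Clean r G β U) {Y : Finset V} (hY : Y ⊆ U)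
    (cY : Y.card + 1 = r) (iY : ∀ p ∈ Y, ∀ q ∈ Y, β p = β q → p = q) {z : V}
    (hz : ¬(z ∈ U ∧ ∃ y ∈ Y, β z = β y)) :
    ∃ O W, RB r G (insert z Y) O W ∧ ∀ y ∈ Y, O y = (U.filter (fun s => β s = β y)).erase y := by
  have zY : z ∉ Y := fun e => hz ⟨hY e, z, e, rfl⟩
  have cX : (insert z Y).card = r := by rw [Finset.card_insert_of_notMem zY, cY]
  have swp : ∀ y ∈ Y, ∀ s ∈ U, β s = β y → insert s ((insert z Y).erase y) ∉ G := by
    intro y hy s hs e hG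
    have h1 : s ∉ Y.erase y := fun g =>
      (Finset.mem_erase.1 g).1 (iY s (Finset.mem_of_mem_erase g) y hy e)
    have h2 := hc.cl (insert s (Y.erase y)) (fun v hv => by grind) (by
      have := Finset.card_pos.2 ⟨y, hy⟩
      rw [Finset.card_insert_of_notMem h1, Finset.card_erase_of_mem hy]; omega)
      (fun p hp q hq => by grind) z (mem_N.2 ⟨by grind, by
        rwa [Finset.erase_insert_of_ne (show z ≠ y from fun e' => zY (e' ▸ hy)),
          Finset.insert_comm] at hG⟩)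
    grind
  rcases role hr h cX (fun g => hz (hc.cl Y hY cY iY z (mem_N.2 ⟨zY, g⟩))) with
    ⟨⟨s, s1, s2⟩, -⟩ | ⟨O, W, R⟩
  · have h1 := s2 z (by simp)
    rw [Finset.erase_insert zY] at h1
    obtain ⟨g1, y, g2, g3⟩ := hc.cl Y hY cY iY s (mem_N.2 ⟨fun e => s1 (by simp [e]), h1⟩)
    exact absurd (s2 y (by simp [g2])) (swp y g2 s g1 g3)
  · refine ⟨O, W, R, fun y hy => Finset.eq_of_subset_of_card_le (fun s hs => ?_) ?_⟩
    · have yX : y ∈ insert z Y := by simp [hy]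
      have s1 := R.oX y yX s hs
      have h1 := R.sw hr cX yX (x := z) (by simp) (fun e => zY (e ▸ hy)) hs
      rw [Finset.erase_insert zY] at h1
      obtain ⟨g1, y', g2, g3⟩ := hc.cl Y hY cY iY s (mem_N.2 ⟨fun e => s1 (by simp [e]), h1⟩)
      have : y = y' := by
        by_contra hn
        exact swp y' g2 s g1 g3 (R.sw hr cX yX (by simp [g2]) hn hs)
      subst this
      exact Finset.mem_erase.2 ⟨fun e => s1 (e ▸ yX), Finset.mem_filter.2 ⟨g1, g3⟩⟩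
    · rw [Finset.card_erase_of_mem (by simp [hY hy]), hc.fib y (hY hy), R.cO y (by simp [hy])]
      omega

theorem trans_of (hr : 4 ≤ r) (hc : Clean r G β U) (p p' : V) (S : Finset Λ)
    (hS : S ⊆ U.image β) (cS : S.card < r) : ∃ (Y : Finset V) (z : V), Y ⊆ U ∧ Y.card + 1 = r ∧
      (∀ a ∈ Y, ∀ b ∈ Y, β a = β b → a = b) ∧ ¬(z ∈ U ∧ ∃ y ∈ Y, β z = β y) ∧
      ∀ b ∈ S, ∃ y ∈ Y, β y = b ∧ y ≠ p ∧ y ≠ p' := by
  have : Nonempty V := ⟨p⟩
  have h1 : ∀ b ∈ U.image β, ∃ v, v ∈ U ∧ β v = b ∧ v ≠ p ∧ v ≠ p' := by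
    intro b hb
    obtain ⟨u, hu, rfl⟩ := Finset.mem_image.1 hb
    obtain ⟨y, hy, hy'⟩ := Finset.exists_mem_notMem_of_card_lt_card (s := {p, p'})
      (t := U.filter (fun s => β s = β u))
      (lt_of_le_of_lt Finset.card_le_two (by rw [hc.fib u hu]; omega))
    simp only [Finset.mem_insert, Finset.mem_singleton, not_or, Finset.mem_filter] at hy hy'
    exact ⟨y, hy.1, hy.2, hy'⟩
  choose! rep hrep using h1
  have h2 := (LL_ge hr).trans hc.big
  obtain ⟨Lb, l1, l2, l3⟩ := Finset.exists_subsuperset_card_eq (n := r - 1) hS (by omega)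
    (by omega)
  obtain ⟨b, b1, b2⟩ := Finset.exists_mem_notMem_of_card_lt_card (s := Lb) (t := U.image β)
    (by omega)
  refine ⟨Lb.image rep, rep b, fun v hv => ?_, ?_, fun a ha c hc' e => ?_, ?_, fun c hc' =>
    ⟨rep c, Finset.mem_image_of_mem _ (l1 hc'), (hrep c (hS hc')).2⟩⟩
  · obtain ⟨c, hc', rfl⟩ := Finset.mem_image.1 hv
    exact (hrep c (l2 hc')).1
  · rw [Finset.card_image_of_injOn (fun a ha c hc' e => by
      rw [← (hrep a (l2 ha)).2.1, e, (hrep c (l2 hc')).2.1])]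
    omega
  · obtain ⟨a, ha2, rfl⟩ := Finset.mem_image.1 ha
    obtain ⟨c, hc2, rfl⟩ := Finset.mem_image.1 hc'
    rw [(hrep a (l2 ha2)).2.1, (hrep c (l2 hc2)).2.1] at e
    rw [e]
  · rintro ⟨-, y, hy, e⟩
    obtain ⟨a, ha, rfl⟩ := Finset.mem_image.1 hy
    rw [(hrep a (l2 ha)).2.1, (hrep b b1).2.1] at e
    exact b2 (e ▸ ha)

theorem K0 (hr : 4 ≤ r) (h : Hyp r G) (hc : Clean r G β U) {e : Finset V} (he : e.card = r)
    (hU : e ⊆ U) {p p' : V} (hp : p ∈ e) (hp' : p' ∈ e) (hn : p ≠ p') (hβ : β p = β p') :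
    e ∈ G := by
  obtain ⟨Y, z, y1, y2, y3, y4, y5⟩ := trans_of hr hc p p' (e.image β)
    (Finset.image_subset_image hU) (lt_of_le_of_ne (Finset.card_image_le.trans he.le) (fun g =>
      hn (Finset.card_image_iff.1 (g.trans he.symm) hp hp' hβ)))
  obtain ⟨O, W, R, hO⟩ := serve hr h hc y1 y2 y3 y4
  obtain ⟨t, t1, t2, t3, t4⟩ := y5 _ (Finset.mem_image_of_mem β hp)
  refine R.ed e he (fun v hv => ?_) t (by simp [t1]) p hp
    (by simp [hO t t1, t3.symm, hU hp, t2]) (Or.inl ⟨p', hp', hn,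
      by simp [hO t t1, t4.symm, hU hp', t2, hβ]⟩)
  obtain ⟨y, g1, g2, -⟩ := y5 _ (Finset.mem_image_of_mem β hv)
  by_cases e' : v = y
  · exact Or.inl (by simp [e', g1])
  · exact Or.inr (Or.inr ⟨y, by simp [g1], by simp [hO y g1, e', hU hv, g2]⟩)

theorem link_K0 (hr : 4 ≤ r) (h : Hyp r G) (hc : Clean r G β U) {A : Cl r → Finset V} (hA : Pl A)
    {e : Finset V} (he : e.card = r) {j : Lj r} (h1 : ∀ v ∈ e, ∃ a, Fam j a ∧ v ∈ A a)
    (h2 : Core A j e) (b : Λ) (f1 : ∀ a, Fam j a → A a ⊆ U)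
    (f2 : ∀ p ∈ A (row (hd j)), ∀ p' ∈ A (row (hd j)), β p = β p')
    (f3 : ∀ a, a = cen (hd j) ∨ Dep j a → ∀ v ∈ A a, β v = b) : e ∈ G := by
  have hU : e ⊆ U := fun v hv => by
    obtain ⟨a, a1, a2⟩ := h1 v hv
    exact f1 a a1 a2
  rcases h2 with ⟨p, hp, p', hp', g1, g2, g3⟩ | ⟨x, hx, -, -, t, ht, g1, -, a, g3, g4⟩
  · exact K0 hr h hc he hU hp hp' g1 (f2 p g2 p' g3)
  · exact K0 hr h hc he hU hx ht (hA.ne g1 g4 (Dep_ne g3).1.symm)
      ((f3 _ (Or.inl rfl) x g1).trans (f3 _ (Or.inr g3) t g4).symm)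

theorem root_K0 (hr : 4 ≤ r) (h : Hyp r G) (hc : Clean r G β U) {e : Finset V} (he : e.card = r)
    (b : Λ) (h1 : ∀ v ∈ e, v ∈ U ∧ β v = b) : e ∈ G := by
  obtain ⟨p, hp, q, hq, hn⟩ := Finset.one_lt_card.1 (show 1 < e.card by omega)
  exact K0 hr h hc he (fun v hv => (h1 v hv).1) hp hq hn ((h1 p hp).2.trans (h1 q hq).2.symm)

/-- placement for the first embedding -/
def pl3 (r : ℕ) : Cl r → Fin 10 ⊕ Bool
  | .inl (.inl (.inl _)) => .inl 1
  | .inl (.inl (.inr g)) => .inl (![0, 1, 5, 6] g)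
  | .inl (.inr (.inl _)) => .inr false
  | .inl (.inr (.inr g)) => ![.inl 4, .inr false, .inl 2, .inl 3] g
  | .inr j => ![.inl 1, .inl 1, .inr true, .inl 7, .inl 8, .inl 9, .inr true, .inr true] j

theorem pl3_sum (c : Fin 10) : ∑ a ∈ univ.filter (fun a => pl3 r a = .inl c), sz r a ≤
    ![1, r + 3, r + 3, r + 3, r + 3, 1, 1, ww r, ww r, ww r] c := by
  simp only [Finset.sum_filter, Fintype.sum_sum_type, Fin.sum_univ_four, Fin.sum_univ_eight, pl3, sz]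
  fin_cases c <;> simp

theorem T3 (hr : 4 ≤ r) (h : Hyp r G) (hc : Clean r G β U) {Y : Finset V} (hY : Y ⊆ U)
    (cY : Y.card + 1 = r) {z w s : V} {Oz Ow : V → Finset V} {Wz Ww : Finset V}
    (Rz : RB r G (insert z Y) Oz Wz) (Rw' : RB r G (insert w Y) Ow Ww)
    (hz : ∀ y ∈ Y, Oz y = (U.filter (fun s => β s = β y)).erase y)
    (hw : ∀ y ∈ Y, Ow y = (U.filter (fun s => β s = β y)).erase y)
    (zY : z ∉ Y) (wY : w ∉ Y) (zw : z ∈ Ow w) (sw : s ∈ Ow w) (hzs : z ≠ s) : s ∈ Oz z := by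
  by_contra hn
  have hb := ww_big hr
  have hb2 : r + 4 ≤ r * (r + 4) := Nat.le_mul_of_pos_left _ (by omega)
  obtain ⟨y1, y2, y3, m1, m2, m3, n12, n13, n23⟩ := Finset.two_lt_card_iff.1
    (show 2 < Y.card by omega)
  have cz := Rz.cO z (by simp)
  obtain ⟨W1, w1, c1⟩ := Finset.exists_subset_card_eq (s := Wz \ {s}) (n := ww r) (by
    have := Finset.le_card_sdiff {s} Wz
    rw [Rz.cW, Finset.card_singleton] at this; omega)
  obtain ⟨W2, w2, c2⟩ := Finset.exists_subset_card_eq (s := Ww \ (Oz z ∪ W1)) (n := ww r) (by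
    have := Finset.le_card_sdiff (Oz z ∪ W1) Ww
    have := Finset.card_union_le (Oz z) W1
    have := Rw'.cW; omega)
  obtain ⟨W3, w3, c3⟩ := Finset.exists_subset_card_eq (s := Ww \ (Oz z ∪ W1 ∪ W2)) (n := ww r) (by
    have := Finset.le_card_sdiff (Oz z ∪ W1 ∪ W2) Ww
    have := Finset.card_union_le (Oz z) W1
    have := Finset.card_union_le (Oz z ∪ W1) W2
    have := Rw'.cW; omega)
  have e1 : Ow y1 = Oz y1 := (hw y1 m1).trans (hz y1 m1).symm
  have e2 : Ow y2 = Oz y2 := (hw y2 m2).trans (hz y2 m2).symm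
  have e3 : Ow y3 = Oz y3 := (hw y3 m3).trans (hz y3 m3).symm
  let C : Fin 10 → Finset V := ![{y1}, Oz y1, Oz y2, Oz y3, Oz z, {z}, {s}, W1, W2, W3]
  have cC : ∀ c, (C c).card = ![1, r + 3, r + 3, r + 3, r + 3, 1, 1, ww r, ww r, ww r] c := by
    intro c
    fin_cases c <;> simp [C, cz, c1, c2, c3, Rz.cO, m1, m2, m3]
  obtain ⟨A, a1, a2, a3, a4⟩ := fold hr β U hc.fib C (by
      have z1 := Rz.oX
      have z2 := Rz.oo
      have z3 := Rz.wX
      have z4 := Rz.wO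
      have v1 := Rw'.oX
      have v2 := Rw'.oo
      have v3 := Rw'.wX
      have v4 := Rw'.wO
      intro i j hij
      refine Finset.disjoint_left.2 (fun v hi hj => ?_)
      have u1 := fun g => Finset.mem_sdiff.1 (@w1 v g)
      have u2 := fun g => Finset.mem_sdiff.1 (@w2 v g)
      have u3 := fun g => Finset.mem_sdiff.1 (@w3 v g)
      clear * - z1 z2 z3 z4 v1 v2 v3 v4 e1 e2 e3 u1 u2 u3 m1 m2 m3 n12 n13 n23 zY wY zw sw hzs hn
        hi hj hij
      fin_cases i <;> fin_cases j <;> first | exact hij rfl | (simp [C] at hi hj; grind))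
    (pl3 r) (fun c => (pl3_sum c).trans (cC c).ge)
    (by
      rintro (((i | g) | (i | g)) | j)
      · simp [pl3]
      · simp [pl3]
      · simp [sz]
      · simp [sz]
      · fin_cases j <;> simp [pl3])
    (by
      refine le_trans ?_ hc.big
      simp only [cC, LL]
      simp [Fin.sum_univ_succ]
      omega)
  have b0 : ∀ a, pl3 r a = .inl 0 ∨ pl3 r a = .inl 1 → ∀ v ∈ A a, v ∈ U ∧ β v = β y1 := by
    rintro a (g | g) v hv
    · obtain rfl : v = y1 := by simpa [C] using a2 a _ g hv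
      exact ⟨hY m1, rfl⟩
    · have : v ∈ Oz y1 := a2 a _ g hv
      rw [hz y1 m1] at this
      exact Finset.mem_filter.1 (Finset.mem_of_mem_erase this)
  have bU : ∀ a, (pl3 r a = .inl 0 ∨ pl3 r a = .inl 1) ∨ pl3 r a = .inr false ∨
      pl3 r a = .inr true → A a ⊆ U := by
    rintro a (g | g | g)
    exacts [fun v hv => (b0 a g v hv).1, a3 a _ g, a3 a _ g]
  have au : ∀ v ∈ A (cen (.inr 0)), v = y1 := fun v hv => by simpa [C] using a2 _ 0 rfl hv
  have av : ∀ v ∈ A (cen (.inr 2)), v = z := fun v hv => by simpa [C] using a2 _ 5 rfl hv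
  have al : ∀ v ∈ A (cen (.inr 3)), v = s := fun v hv => by simpa [C] using a2 _ 6 rfl hv
  have gad : ∀ e : Finset V, e.card = r → ∀ y ∈ Y, ∀ (x t : V) (a b c d : Cl r), x ∈ Ow w →
      t ∈ Ow w → x ≠ t → (∀ v ∈ A a, v = x) → (∀ v ∈ A b, v = t) → A c ⊆ Ww → A d ⊆ Ow y →
      (∀ v ∈ e, ∃ k, (k = a ∨ k = b ∨ k = c ∨ k = d) ∧ v ∈ A k) →
      ((∃ p ∈ e, ∃ p' ∈ e, p ≠ p' ∧ p ∈ A d ∧ p' ∈ A d) ∨ ∃ x ∈ e, ∃ p ∈ e, ∃ t ∈ e, x ∈ A a ∧
        p ∈ A d ∧ ∃ k, k = b ∧ t ∈ A k) → e ∈ G := by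
    intro e he y hy x t a b c d hx ht hxt f1 f2 f3 f4 h1 h2
    have h3 : ∀ v ∈ e, v ∈ insert w Y ∨ v ∈ Ww ∨ ∃ t ∈ insert w Y, v ∈ Ow t := by
      intro v hv
      obtain ⟨k, rfl | rfl | rfl | rfl, g⟩ := h1 v hv
      exacts [Or.inr (Or.inr ⟨w, by simp, f1 v g ▸ hx⟩), Or.inr (Or.inr ⟨w, by simp, f2 v g ▸ ht⟩),
        Or.inr (Or.inl (f3 g)), Or.inr (Or.inr ⟨y, by simp [hy], f4 g⟩)]
    rcases h2 with ⟨p, hp, p', hp', g1, g2, g3⟩ | ⟨x', hx', -, -, t', ht', g1, -, k, rfl, g4⟩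
    · exact Rw'.ed e he h3 y (by simp [hy]) p hp (f4 g2) (Or.inl ⟨p', hp', g1, f4 g3⟩)
    · exact Rw'.ed e he h3 w (by simp) x (f1 _ g1 ▸ hx') hx (Or.inl ⟨t, f2 _ g4 ▸ ht', hxt, ht⟩)
  refine h.free A ⟨a1, fun e he hE => ?_⟩
  rcases hE with hE | ⟨i | g, h1, h2⟩
  · refine root_K0 hr h hc he (β y1) (fun v hv => ?_)
    obtain ⟨i, hi⟩ := hE v hv
    exact b0 _ (Or.inr rfl) v hi
  · refine link_K0 hr h hc a1 he h1 h2 (β y1) (fun a ha => bU a ?_) (a4 _ rfl)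
      (fun a ha v hv => (b0 a ?_ v hv).2)
    · rcases ha with rfl | (⟨i, -, rfl⟩ | rfl | rfl) | rfl | ⟨i, rfl⟩ <;> simp [pl3, hd, fl]
    · rcases ha with rfl | ⟨i, -, rfl⟩ | rfl | rfl <;> simp [pl3, hd]
  · fin_cases g
    · have f4 : A (row (.inr 0)) ⊆ Oz z := a2 _ 4 rfl
      have h3 : ∀ v ∈ e, v ∈ insert z Y ∨ v ∈ Wz ∨ ∃ t ∈ insert z Y, v ∈ Oz t := by
        intro v hv
        obtain ⟨k, rfl | rfl | rfl | rfl, g⟩ := h1 v hv
        exacts [Or.inl (by simp [au v g, m1]), Or.inl (by simp [av v g]),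
          Or.inr (Or.inl (Finset.mem_sdiff.1 (w1 (a2 _ 7 rfl g))).1),
          Or.inr (Or.inr ⟨z, by simp, f4 g⟩)]
      rcases h2 with ⟨p, hp, p', hp', g1, g2, g3⟩ | ⟨x, hx, p, hp, t, ht, g1, g2, k, rfl, g4⟩
      · exact Rz.ed e he h3 z (by simp) p hp (f4 g2) (Or.inl ⟨p', hp', g1, f4 g3⟩)
      · exact Rz.ed e he h3 z (by simp) p hp (f4 g2) (Or.inr ⟨av _ g4 ▸ ht, y1, au _ g1 ▸ hx,
          by simp [m1], fun e' => zY (e' ▸ m1)⟩)
    · exact gad e he y2 m2 z s _ _ _ _ zw sw hzs av al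
        ((a2 (.inr 4) 8 rfl).trans (w2.trans Finset.sdiff_subset)) (e2 ▸ a2 (row (.inr 2)) 2 rfl)
        h1 h2
    · exact gad e he y3 m3 s z _ _ _ _ sw zw hzs.symm al av
        ((a2 (.inr 5) 9 rfl).trans (w3.trans Finset.sdiff_subset)) (e3 ▸ a2 (row (.inr 3)) 3 rfl)
        h1 h2
    all_goals
      refine link_K0 hr h hc a1 he h1 h2 (β y1) (fun a ha => bU a ?_) (a4 _ rfl)
        (fun a ha v hv => (b0 a ?_ v hv).2)
      · rcases ha with rfl | rfl | rfl | rfl <;> simp [pl3, hd, fl, tg]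
      · rcases ha with rfl | rfl <;> simp [pl3, hd, tg]

/-- placement for the second embedding -/
def pl2 (r : ℕ) : Cl r → Fin 7 ⊕ Bool
  | .inl (.inl (.inl _)) => .inl 1
  | .inl (.inl (.inr g)) => .inl (![1, 0, 1, 1] g)
  | .inl (.inr (.inl _)) => .inr false
  | .inl (.inr (.inr g)) => ![.inr false, .inl 2, .inr false, .inr false] g
  | .inr j => ![.inl 3, .inl 4, .inr true, .inr true, .inr true, .inr true, .inl 5, .inl 6] j

theorem pl2_sum (c : Fin 7) : ∑ a ∈ univ.filter (fun a => pl2 r a = .inl c), sz r a ≤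
    ![1, r + 3, r + 3, 1, 1, ww r, ww r] c := by
  simp only [Finset.sum_filter, Fintype.sum_sum_type, Fin.sum_univ_four, Fin.sum_univ_eight, pl2, sz]
  fin_cases c <;> simp

theorem T2 (hr : 4 ≤ r) (h : Hyp r G) (hc : Clean r G β U) {Y : Finset V} (hY : Y ⊆ U)
    (cY : Y.card + 1 = r) {x w : V} {Ox Ow : V → Finset V} {Wx Ww : Finset V}
    (Rx : RB r G (insert x Y) Ox Wx) (Rw' : RB r G (insert w Y) Ow Ww)
    (hx : ∀ y ∈ Y, Ox y = (U.filter (fun s => β s = β y)).erase y)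
    (hw : ∀ y ∈ Y, Ow y = (U.filter (fun s => β s = β y)).erase y)
    (xY : x ∉ Y) (wY : w ∉ Y) (e0 : Ox x = Ow w) : w = x := by
  by_contra hn
  have hb := ww_big hr
  have hb2 : r + 4 ≤ r * (r + 4) := Nat.le_mul_of_pos_left _ (by omega)
  obtain ⟨y1, m1⟩ := Finset.card_pos.1 (show 0 < Y.card by omega)
  have cw := Rw'.cO w (by simp)
  obtain ⟨W1, w1, c1⟩ := Finset.exists_subset_card_eq (s := Ww \ {x}) (n := ww r) (by
    have := Finset.le_card_sdiff {x} Ww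
    rw [Rw'.cW, Finset.card_singleton] at this; omega)
  obtain ⟨W2, w2, c2⟩ := Finset.exists_subset_card_eq (s := Wx \ ({w} ∪ W1)) (n := ww r) (by
    have := Finset.le_card_sdiff ({w} ∪ W1) Wx
    have := Finset.card_union_le {w} W1
    rw [Finset.card_singleton] at this
    have := Rx.cW; omega)
  have e1 : Ox y1 = Ow y1 := (hx y1 m1).trans (hw y1 m1).symm
  let C : Fin 7 → Finset V := ![{y1}, Ow y1, Ow w, {w}, {x}, W1, W2]
  have cC : ∀ c, (C c).card = ![1, r + 3, r + 3, 1, 1, ww r, ww r] c := by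
    intro c
    fin_cases c <;> simp [C, cw, c1, c2, Rw'.cO, m1]
  obtain ⟨A, a1, a2, a3, a4⟩ := fold hr β U hc.fib C (by
      have z1 := Rx.oX
      have z3 := Rx.wX
      have z4 := Rx.wO
      have v1 := Rw'.oX
      have v2 := Rw'.oo
      have v3 := Rw'.wX
      have v4 := Rw'.wO
      intro i j hij
      refine Finset.disjoint_left.2 (fun v hi hj => ?_)
      have u1 := fun g => Finset.mem_sdiff.1 (@w1 v g)
      have u2 := fun g => Finset.mem_sdiff.1 (@w2 v g)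
      clear * - z1 z3 z4 v1 v2 v3 v4 e0 e1 u1 u2 m1 xY wY hn hi hj hij
      fin_cases i <;> fin_cases j <;> first | exact hij rfl | (simp [C] at hi hj; grind))
    (pl2 r) (fun c => (pl2_sum c).trans (cC c).ge)
    (by
      rintro (((i | g) | (i | g)) | j)
      · simp [pl2]
      · simp [pl2]
      · simp [sz]
      · simp [sz]
      · fin_cases j <;> simp [pl2])
    (by
      refine le_trans ?_ hc.big
      simp only [cC, LL]
      simp [Fin.sum_univ_succ]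
      omega)
  have b0 : ∀ a, pl2 r a = .inl 0 ∨ pl2 r a = .inl 1 → ∀ v ∈ A a, v ∈ U ∧ β v = β y1 := by
    rintro a (g | g) v hv
    · obtain rfl : v = y1 := by simpa [C] using a2 a _ g hv
      exact ⟨hY m1, rfl⟩
    · have : v ∈ Ow y1 := a2 a _ g hv
      rw [hw y1 m1] at this
      exact Finset.mem_filter.1 (Finset.mem_of_mem_erase this)
  have bU : ∀ a, (pl2 r a = .inl 0 ∨ pl2 r a = .inl 1) ∨ pl2 r a = .inr false ∨
      pl2 r a = .inr true → A a ⊆ U := by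
    rintro a (g | g | g)
    exacts [fun v hv => (b0 a g v hv).1, a3 a _ g, a3 a _ g]
  have au : ∀ v ∈ A (cen (.inr 1)), v = y1 := fun v hv => by simpa [C] using a2 _ 0 rfl hv
  have gad : ∀ e : Finset V, e.card = r → ∀ (z : V) (O : V → Finset V) (W : Finset V)
      (b c : Cl r), RB r G (insert z Y) O W → z ∉ Y → (∀ v ∈ A b, v = z) → A c ⊆ W →
      A (row (.inr 1)) ⊆ O z →
      (∀ v ∈ e, ∃ k, (k = cen (.inr 1) ∨ k = b ∨ k = c ∨ k = row (.inr 1)) ∧ v ∈ A k) →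
      ((∃ p ∈ e, ∃ p' ∈ e, p ≠ p' ∧ p ∈ A (row (.inr 1)) ∧ p' ∈ A (row (.inr 1))) ∨
        ∃ x ∈ e, ∃ p ∈ e, ∃ t ∈ e, x ∈ A (cen (.inr 1)) ∧ p ∈ A (row (.inr 1)) ∧
          ∃ k, k = b ∧ t ∈ A k) → e ∈ G := by
    intro e he z O W b c R zY f2 f3 f4 h1 h2
    have h3 : ∀ v ∈ e, v ∈ insert z Y ∨ v ∈ W ∨ ∃ t ∈ insert z Y, v ∈ O t := by
      intro v hv
      obtain ⟨k, rfl | rfl | rfl | rfl, g⟩ := h1 v hv
      exacts [Or.inl (by simp [au v g, m1]), Or.inl (by simp [f2 v g]), Or.inr (Or.inl (f3 g)),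
        Or.inr (Or.inr ⟨z, by simp, f4 g⟩)]
    rcases h2 with ⟨p, hp, p', hp', g1, g2, g3⟩ | ⟨x, hx, p, hp, t, ht, g1, g2, k, rfl, g4⟩
    · exact R.ed e he h3 z (by simp) p hp (f4 g2) (Or.inl ⟨p', hp', g1, f4 g3⟩)
    · exact R.ed e he h3 z (by simp) p hp (f4 g2) (Or.inr ⟨f2 _ g4 ▸ ht, y1, au _ g1 ▸ hx,
        by simp [m1], fun e' => zY (e' ▸ m1)⟩)
  refine h.free A ⟨a1, fun e he hE => ?_⟩
  rcases hE with hE | ⟨i | g, h1, h2⟩
  · refine root_K0 hr h hc he (β y1) (fun v hv => ?_)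
    obtain ⟨i, hi⟩ := hE v hv
    exact b0 _ (Or.inr rfl) v hi
  · refine link_K0 hr h hc a1 he h1 h2 (β y1) (fun a ha => bU a ?_) (a4 _ rfl)
      (fun a ha v hv => (b0 a ?_ v hv).2)
    · rcases ha with rfl | (⟨i, -, rfl⟩ | rfl | rfl) | rfl | ⟨i, rfl⟩ <;> simp [pl2, hd, fl]
    · rcases ha with rfl | ⟨i, -, rfl⟩ | rfl | rfl <;> simp [pl2, hd]
  · fin_cases g
    rotate_left 3
    · exact gad e he w Ow Ww _ _ Rw' wY (fun v hv => by simpa [C] using a2 (.inr 0) 3 rfl hv)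
        ((a2 (.inr 6) 5 rfl).trans (w1.trans Finset.sdiff_subset)) (a2 _ 2 rfl) h1 h2
    · exact gad e he x Ox Wx _ _ Rx xY (fun v hv => by simpa [C] using a2 (.inr 1) 4 rfl hv)
        ((a2 (.inr 7) 6 rfl).trans (w2.trans Finset.sdiff_subset)) (e0 ▸ a2 _ 2 rfl) h1 h2
    all_goals
      refine link_K0 hr h hc a1 he h1 h2 (β y1) (fun a ha => bU a ?_) (a4 _ rfl)
        (fun a ha v hv => (b0 a ?_ v hv).2)
      · rcases ha with rfl | rfl | rfl | rfl <;> simp [pl2, hd, fl, tg]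
      · rcases ha with rfl | rfl <;> simp [pl2, hd, tg]

omit [Fintype V] in
theorem pieces {q : ℕ} (hq : 2 ≤ q) (S : Finset V) (P : V → Finset V)
    (h1 : ∀ z ∈ S, P z ⊆ S ∧ z ∉ P z ∧ (P z).card = q)
    (t3 : ∀ w ∈ S, ∀ z ∈ P w, ∀ s ∈ P w, z ≠ s → s ∈ P z)
    (t2 : ∀ w ∈ S, ∀ x ∈ S, P x = P w → w = x) {w z : V} (hw : w ∈ S) (hz : z ∈ P w) :
    insert z (P z) = insert w (P w) := by
  obtain ⟨a1, a2, a3⟩ := h1 w hw
  have zS := a1 hz
  obtain ⟨b1, b2, b3⟩ := h1 z zS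
  obtain ⟨x, x1, x2⟩ := Finset.exists_mem_notMem_of_card_lt_card (s := (P w).erase z) (t := P z)
    (by rw [Finset.card_erase_of_mem hz]; omega)
  have xz : x ≠ z := fun e => b2 (e ▸ x1)
  have x3 : x ∉ P w := fun e => x2 (Finset.mem_erase.2 ⟨xz, e⟩)
  obtain ⟨z', z1, z2⟩ := Finset.exists_mem_ne (show 1 < (P w).card by omega) z
  have k1 : ∀ s ∈ P w, s ≠ z → s ∈ P x := fun s hs hn =>
    t3 z zS x x1 s (t3 w hw z hz s hs hn.symm) (fun e => x3 (e ▸ hs))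
  have k2 : x ∈ P z' := t3 z zS z' (t3 w hw z hz z' z1 z2.symm) x x1 (fun e => x3 (e ▸ z1))
  have k3 : z ∈ P x := t3 z' (a1 z1) x k2 z (t3 w hw z' z1 z hz z2) xz
  have k4 : P w = P x := Finset.eq_of_subset_of_card_le (fun s hs => by
    by_cases e : s = z
    · exact e ▸ k3
    · exact k1 s hs e) (by rw [a3, (h1 x (b1 x1)).2.2])
  obtain rfl := t2 w hw x (b1 x1) k4.symm
  refine (Finset.eq_of_subset_of_card_le (fun s hs => ?_) ?_).symm
  · rcases Finset.mem_insert.1 hs with rfl | hs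
    · exact Finset.mem_insert_of_mem x1
    · by_cases e : s = z
      · simp [e]
      · exact Finset.mem_insert_of_mem (t3 w hw z hz s hs (Ne.symm e))
  · rw [Finset.card_insert_of_notMem a2, Finset.card_insert_of_notMem b2, a3, b3]

theorem Clean.dvd (hr : 4 ≤ r) (h : Hyp r G) (hc : Clean r G β U) : r + 4 ∣ Fintype.card V := by
  classical
  obtain ⟨b, hb⟩ := Finset.card_pos.1
    (show 0 < (U.image β).card from lt_of_lt_of_le (by omega) ((LL_ge hr).trans hc.big))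
  obtain ⟨p, -, -⟩ := Finset.mem_image.1 hb
  obtain ⟨Y, -, y1, y2, y3, -, -⟩ := trans_of hr hc p p ∅ (by simp) (by simp; omega)
  let S := univ.filter (fun z => ¬(z ∈ U ∧ ∃ y ∈ Y, β z = β y))
  have hS : ∀ z ∈ S, ∃ (O : V → Finset V) (W : Finset V), RB r G (insert z Y) O W ∧
      ∀ y ∈ Y, O y = (U.filter (fun s => β s = β y)).erase y :=
    fun z hz => serve hr h hc y1 y2 y3 (Finset.mem_filter.1 hz).2
  choose! O W R hO using hS
  have sY : ∀ z ∈ S, z ∉ Y := fun z hz e => (Finset.mem_filter.1 hz).2 ⟨y1 e, z, e, rfl⟩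
  have h1 : ∀ z ∈ S, O z z ⊆ S ∧ z ∉ O z z ∧ (O z z).card = r + 3 := by
    intro z hz
    refine ⟨fun s hs => Finset.mem_filter.2 ⟨mem_univ _, fun ⟨g1, y, g2, g3⟩ => ?_⟩,
      fun e => (R z hz).oX z (by simp) z e (by simp), (R z hz).cO z (by simp)⟩
    have n1 : s ≠ y := fun e => (R z hz).oX z (by simp) s hs (by simp [e, g2])
    exact sY z hz ((R z hz).oo z (by simp) y (by simp [g2]) s hs
      (by simp [hO z hz y g2, n1, g1, g3]) ▸ g2)
  have h2 := fun w z hw hz => pieces (q := r + 3) (by omega) S (fun z => O z z) h1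
    (fun w hw z hz s hs hn => T3 hr h hc y1 y2 (R z ((h1 w hw).1 hz)) (R w hw)
      (hO z ((h1 w hw).1 hz)) (hO w hw) (sY z ((h1 w hw).1 hz)) (sY w hw) hz hs hn)
    (fun w hw x hx e => T2 hr h hc y1 y2 (R x hx) (R w hw) (hO x hx) (hO w hw) (sY x hx) (sY w hw) e)
    (w := w) (z := z) hw hz
  rw [← Finset.card_univ, ← Finset.card_filter_add_card_filter_not
    (fun z => z ∈ U ∧ ∃ y ∈ Y, β z = β y)]
  refine dvd_add (H77.dvd_of_classes _ (fun w => U.filter (fun s => β s = β w)) _ (fun w hw => ?_))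
    (H77.dvd_of_classes S (fun w => insert w (O w w)) _ (fun w hw => ?_))
  · obtain ⟨g1, y, g2, g3⟩ := (Finset.mem_filter.1 hw).2
    refine ⟨by simp [g1], fun s hs => ?_, hc.fib w g1, fun s hs => ?_⟩
    · obtain ⟨g4, g5⟩ := Finset.mem_filter.1 hs
      exact Finset.mem_filter.2 ⟨mem_univ _, g4, y, g2, g5.trans g3⟩
    · simp only [(Finset.mem_filter.1 hs).2]
  · refine ⟨by simp, Finset.insert_subset hw (h1 w hw).1,
      by rw [Finset.card_insert_of_notMem (h1 w hw).2.1, (h1 w hw).2.2], fun s hs => ?_⟩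
    rcases Finset.mem_insert.1 hs with rfl | hs
    · rfl
    · exact h2 w s hw hs

end Pool.Agent.MP_038f7f_co.H95
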