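import Mathlib
import Pool.Agent.MP_038f7f_co.h95.Two

/-!
Weights, good sets and tight sets.
-/

set_option autoImplicit false

namespace Pool.Agent.MP_038f7f_co.H95

open Finset

variable {r D : ℕ} {V : Type} [Fintype V] [DecidableEq V] {G : Finset (Finset V)}

/-- small codegree -/
abbrev sm (G : Finset (Finset V)) (D : ℕ) (Y : Finset V) : Prop := (N G Y).card ≤ D

/-- number of small subsets -/
def sg (G : Finset (Finset V)) (D : ℕ) (e : Finset V) : ℕ :=
  (e.filter (fun x => sm G D (e.erase x))).card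

/-- weight of an edge -/
def om (r : ℕ) (G : Finset (Finset V)) (D : ℕ) (e : Finset V) : ℕ :=
  if sg G D e ≤ 1 then 2 * r else if sg G D e = 2 then r else 2

/-- load of a set -/
def La (r : ℕ) (G : Finset (Finset V)) (D : ℕ) (Y : Finset V) : ℕ :=
  if sm G D Y then ∑ s ∈ N G Y, om r G D (insert s Y) else 0

/-- total load below a set -/
def SS (r : ℕ) (G : Finset (Finset V)) (D : ℕ) (X : Finset V) : ℕ :=
  ∑ x ∈ X, La r G D (X.erase x)

/-- the row read off from a set and one of its points -/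
def Of (G : Finset (Finset V)) (D : ℕ) (Y : Finset V) (t : V) : Finset V :=
  (N G Y).filter (fun s => sm G D (insert s (Y.erase t)))

/-- the expected load -/
def mu (r : ℕ) : ℕ := r * (r * ((r - 1) * (r + 3)))

/-- good sets -/
structure Good (G : Finset (Finset V)) (D : ℕ) (X : Finset V) : Prop where
  ne : X ∉ G
  small : ∀ x ∈ X, sm G D (X.erase x)
  cn : ∀ x ∈ X, ∀ y ∈ X, x ≠ y → ∀ s ∈ N G (X.erase x), s ∈ N G (X.erase y) →
    ¬sm G D (insert s ((X.erase x).erase y))

/-- tight sets -/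
structure Tt (r : ℕ) (G : Finset (Finset V)) (D : ℕ) (X : Finset V) (O : V → Finset V) : Prop where
  rb : ∃ W, RB r G X O W
  of : ∀ x ∈ X, ∀ t ∈ X, t ≠ x → Of G D (X.erase x) t = O t
  nb : ∀ x ∈ X, ∀ s ∈ N G (X.erase x), ∃ t ∈ X, t ≠ x ∧ s ∈ O t

theorem om_ge (hr : 4 ≤ r) (e : Finset V) : 2 ≤ om r G D e := by
  unfold om; split_ifs <;> omega

theorem sg_om {e : Finset V} (he : e.card = r) : sg G D e * om r G D e ≤ 2 * r := by
  have : sg G D e ≤ r := he ▸ Finset.card_filter_le _ _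
  unfold om
  split_ifs with h1 h2
  · nlinarith
  · rw [h2]
  · omega

theorem La_ge (hr : 4 ≤ r) {Y : Finset V} (h : sm G D Y) : 2 * (N G Y).card ≤ La r G D Y := by
  rw [La, if_pos h, mul_comm]
  exact Finset.card_nsmul_le_sum _ _ 2 (fun s _ => om_ge hr _)

theorem mu_le (hr : 4 ≤ r) : mu r ≤ ww r := by
  unfold mu ww
  calc r * (r * ((r - 1) * (r + 3))) ≤ r * (r * (r * (r + 4))) := by gcongr <;> omega
    _ = _ := by ring

omit [Fintype V] in
theorem sum_two {S : Finset V} {g f : V → ℕ} (h : ∀ s ∈ S, g s ≤ f s) {s0 : V} (h0 : s0 ∈ S)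
    (h2 : g s0 + 2 ≤ f s0) : ∑ s ∈ S, g s + 2 ≤ ∑ s ∈ S, f s := by
  rw [← Finset.add_sum_erase _ _ h0, ← Finset.add_sum_erase _ f h0]
  have := Finset.sum_le_sum (s := S.erase s0) (fun s hs => h s (Finset.mem_of_mem_erase hs))
  omega

theorem good_cases (hr : 4 ≤ r) (h : Hyp r G) {X : Finset V} (hX : X.card = r) (g : Good G D X) :
    mu r ≤ SS r G D X ∧ (SS r G D X ≤ mu r + 1 → ∃ O, Tt r G D X O) := by
  rcases role hr h hX g.ne with ⟨-, y, hy, h1⟩ | ⟨O, W, R⟩
  · have h2 := La_ge (r := r) hr (g.small y hy)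
    have h3 : La r G D (X.erase y) ≤ SS r G D X :=
      Finset.single_le_sum (f := fun x => La r G D (X.erase x)) (fun _ _ => Nat.zero_le _) hy
    have h4 := mu_le hr
    have h5 := ww_big hr
    have h6 : r + 4 ≤ r * (r + 4) := Nat.le_mul_of_pos_left _ (by omega)
    exact ⟨by omega, fun _ => by omega⟩
  have inN : ∀ x ∈ X, ∀ t ∈ X, t ≠ x → ∀ s ∈ O t, s ∈ N G (X.erase x) := fun x hx t ht n s hs =>
    mem_N.2 ⟨fun e => R.oX t ht s hs (Finset.mem_of_mem_erase e), R.sw hr hX ht hx n hs⟩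
  have big : ∀ x ∈ X, ∀ t ∈ X, t ≠ x → ∀ s ∈ O t, ∀ y ∈ (insert s (X.erase x)).filter
      (fun y => sm G D ((insert s (X.erase x)).erase y)), y = s ∨ (y = t ∧
        sm G D (insert s ((X.erase x).erase t))) := by
    intro x hx t ht n s hs y hy
    obtain ⟨y1, y2⟩ := Finset.mem_filter.1 hy
    by_cases e : y = s
    · exact Or.inl e
    rw [Finset.erase_insert_of_ne (Ne.symm e)] at y2
    obtain ⟨y3, y4⟩ := Finset.mem_erase.1 ((Finset.mem_insert.1 y1).resolve_left e)
    by_cases e' : y = t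
    · exact Or.inr ⟨e', e' ▸ y2⟩
    · exact absurd y2 (g.cn x hx y y4 y3.symm s (inN x hx t ht n s hs)
        (inN y y4 t ht (Ne.symm e') s hs))
  let wt : V → V → ℕ := fun x s => if s ∈ (X.erase x).biUnion O then r else 0
  have w1 : ∀ x ∈ X, ∀ s, wt x s ≤ om r G D (insert s (X.erase x)) := by
    intro x hx s
    by_cases e : s ∈ (X.erase x).biUnion O
    · obtain ⟨t, ht, hs⟩ := Finset.mem_biUnion.1 e
      obtain ⟨t1, t2⟩ := Finset.mem_erase.1 ht
      have : sg G D (insert s (X.erase x)) ≤ 2 := le_trans (Finset.card_le_card (t := {s, t})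
        (fun y hy => by rcases big x hx t t2 t1 s hs y hy with e | e <;> simp [e]))
        Finset.card_le_two
      simp only [wt, if_pos e, om]
      split_ifs <;> omega
    · simp only [wt, if_neg e, Nat.zero_le]
  have w2 : ∀ x ∈ X, ∑ s ∈ N G (X.erase x), wt x s = r * ((r - 1) * (r + 3)) := by
    intro x hx
    have : (N G (X.erase x)).filter (fun s => s ∈ (X.erase x).biUnion O) =
        (X.erase x).biUnion O := by
      refine Finset.Subset.antisymm (fun s hs => (Finset.mem_filter.1 hs).2) (fun s hs => ?_)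
      obtain ⟨t, ht, hs'⟩ := Finset.mem_biUnion.1 hs
      exact Finset.mem_filter.2 ⟨inN x hx t (Finset.mem_of_mem_erase ht)
        (Finset.mem_erase.1 ht).1 s hs', hs⟩
    rw [← Finset.sum_filter, this, Finset.sum_const, Finset.card_biUnion (fun t ht t' ht' n =>
      Finset.disjoint_left.2 (fun s hs hs' => n (R.oo t (Finset.mem_of_mem_erase ht) t'
        (Finset.mem_of_mem_erase ht') s hs hs'))), Finset.sum_congr rfl
      (fun t ht => R.cO t (Finset.mem_of_mem_erase ht)), Finset.sum_const,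
      Finset.card_erase_of_mem hx, hX, smul_eq_mul, smul_eq_mul, mul_comm]
  have w3 : ∀ x ∈ X, r * ((r - 1) * (r + 3)) ≤ La r G D (X.erase x) := by
    intro x hx
    rw [La, if_pos (g.small x hx), ← w2 x hx]
    exact Finset.sum_le_sum (fun s _ => w1 x hx s)
  have w4 : ∑ _x ∈ X, r * ((r - 1) * (r + 3)) = mu r := by rw [Finset.sum_const, hX]; rfl
  refine ⟨w4 ▸ Finset.sum_le_sum w3, fun hS => ?_⟩
  have w5 : ∀ x ∈ X, ∀ s ∈ N G (X.erase x), ¬wt x s + 2 ≤ om r G D (insert s (X.erase x)) := by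
    intro x hx s hs hc
    have k1 := sum_two (fun s _ => w1 x hx s) hs hc
    have k2 := sum_two w3 hx (by rw [La, if_pos (g.small x hx), ← w2 x hx]; exact k1)
    rw [w4] at k2
    unfold SS at hS
    omega
  have nb : ∀ x ∈ X, ∀ s ∈ N G (X.erase x), ∃ t ∈ X, t ≠ x ∧ s ∈ O t := by
    intro x hx s hs
    by_contra hc
    refine w5 x hx s hs ?_
    have : s ∉ (X.erase x).biUnion O := fun e => by
      obtain ⟨t, ht, hs'⟩ := Finset.mem_biUnion.1 e
      exact hc ⟨t, Finset.mem_of_mem_erase ht, (Finset.mem_erase.1 ht).1, hs'⟩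
    simp only [wt, if_neg this, zero_add]
    exact om_ge hr _
  refine ⟨O, ⟨W, R⟩, fun x hx t ht n => Finset.Subset.antisymm (fun s hs => ?_) (fun s hs => ?_), nb⟩
  · obtain ⟨s1, s2⟩ := Finset.mem_filter.1 hs
    obtain ⟨t', t1, t2, t3⟩ := nb x hx s s1
    by_cases e : t' = t
    · exact e ▸ t3
    · exact absurd s2 (g.cn x hx t ht n.symm s s1 (inN t ht t' t1 e s t3))
  · refine Finset.mem_filter.2 ⟨inN x hx t ht n s hs, ?_⟩
    by_contra hc
    refine w5 x hx s (inN x hx t ht n s hs) ?_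
    have : sg G D (insert s (X.erase x)) ≤ 1 := le_trans (Finset.card_le_card (t := {s})
      (fun y hy => by
        rcases big x hx t ht n s hs y hy with e | e
        · simp [e]
        · exact absurd e.2 hc)) (by simp)
    simp only [wt, om, if_pos this]
    split_ifs <;> omega

/-- nice sets of level `j` -/
def NiceL (r : ℕ) (G : Finset (Finset V)) (D : ℕ) : ℕ → Finset V → Prop
  | 0, X => Good G D X ∧ SS r G D X ≤ mu r + 1
  | j + 1, X => (Good G D X ∧ SS r G D X ≤ mu r + 1) ∧ ∀ x ∈ X, ∀ y ∈ X, y ≠ x →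
      ∀ s ∈ Of G D (X.erase y) x, NiceL r G D j (insert s (X.erase x))

theorem NiceL.tt (hr : 4 ≤ r) (h : Hyp r G) {X : Finset V} (hX : X.card = r) {j : ℕ}
    (g : NiceL r G D j X) : ∃ O, Tt r G D X O := by
  cases j with
  | zero => exact (good_cases hr h hX g.1).2 g.2
  | succ j => exact (good_cases hr h hX g.1.1).2 g.1.2

theorem Tt.swap (hr : 4 ≤ r) {X : Finset V} (hX : X.card = r) {O O' : V → Finset V}
    (T : Tt r G D X O) {x s : V} (hx : x ∈ X) (hs : s ∈ O x)
    (T' : Tt r G D (insert s (X.erase x)) O') :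
    insert s (O' s) = insert x (O x) ∧ ∀ t ∈ X.erase x, O' t = O t := by
  obtain ⟨W, R⟩ := T.rb
  obtain ⟨W', R'⟩ := T'.rb
  have sX := R.oX x hx s hs
  have sX' : s ∉ X.erase x := fun e => sX (Finset.mem_of_mem_erase e)
  have k1 : ∀ t ∈ X.erase x, O' t = O t := by
    intro t ht
    rw [← T'.of s (by simp) t (Finset.mem_insert_of_mem ht) (fun e => sX' (e ▸ ht)),
      Finset.erase_insert sX', T.of x hx t (Finset.mem_of_mem_erase ht) (Finset.mem_erase.1 ht).1]
  refine ⟨(Finset.eq_of_subset_of_card_le (fun p hp => ?_) ?_).symm, k1⟩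
  · by_cases e : p = s
    · simp [e]
    obtain ⟨y, hy, yx⟩ := Finset.exists_mem_ne (show 1 < X.card by omega) x
    have ys : y ≠ s := fun e => sX (e ▸ hy)
    have pX : p ∉ insert s (X.erase x) := by
      rcases Finset.mem_insert.1 hp with rfl | hp
      · simp [e]
      · simp [e, R.oX x hx p hp]
    have yX : y ∈ insert s (X.erase x) := by simp [hy, yx]
    obtain ⟨t, t1, t2, t3⟩ := T'.nb y yX p (mem_N.2 ⟨fun g => pX (Finset.mem_of_mem_erase g), by
      rcases Finset.mem_insert.1 hp with rfl | hp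
      · have := R.sw hr hX hx hy yx.symm hs
        rwa [Finset.erase_insert_of_ne ys.symm, Finset.insert_comm, Finset.erase_right_comm,
          Finset.insert_erase (by simp [hx, yx.symm])]
      · refine R.ed _ (card_sw (card_sw hX sX hx) pX yX) (fun v hv => ?_) x hx p (by simp) hp
          (Or.inl ⟨s, by simp [ys.symm], e, hs⟩)
        simp only [Finset.mem_insert, Finset.mem_erase] at hv
        rcases hv with rfl | ⟨-, rfl | hv⟩
        exacts [Or.inr (Or.inr ⟨x, hx, hp⟩), Or.inr (Or.inr ⟨x, hx, hs⟩), Or.inl hv.2]⟩)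
    rcases Finset.mem_insert.1 t1 with rfl | t1
    · exact Finset.mem_insert_of_mem t3
    · rw [k1 t t1] at t3
      obtain ⟨t4, t5⟩ := Finset.mem_erase.1 t1
      rcases Finset.mem_insert.1 hp with rfl | hp
      · exact absurd hx (R.oX t t5 p t3)
      · exact absurd (R.oo t t5 x hx p t3 hp) t4
  · rw [Finset.card_insert_of_notMem (fun e => R.oX x hx x e hx), R.cO x hx,
      Finset.card_insert_of_notMem (fun e => R'.oX s (by simp) s e (by simp)), R'.cO s (by simp)]

theorem walk (hr : 4 ≤ r) (h : Hyp r G) (Bl : V → Finset V) (β : V → V) {Z : Finset V}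
    (hZ : Z.card = r) (iZ : ∀ p ∈ Z, ∀ q ∈ Z, β p = β q → p = q) (j : ℕ) :
    ∀ (X : Finset V) (O : V → Finset V), X.card = r → NiceL r G D j X → Tt r G D X O →
      (∀ t ∈ X, insert t (O t) = Bl (β t)) → (∀ s ∈ Z, ∃ x ∈ X, β x = β s ∧ s ∈ Bl (β s)) →
      (Z \ X).card ≤ j → ∃ O', Tt r G D Z O' ∧ ∀ t ∈ Z, insert t (O' t) = Bl (β t) := by
  have base : ∀ (X : Finset V) (O : V → Finset V), X.card = r → Tt r G D X O →
      (∀ t ∈ X, insert t (O t) = Bl (β t)) → Z \ X = ∅ →
      ∃ O', Tt r G D Z O' ∧ ∀ t ∈ Z, insert t (O' t) = Bl (β t) := by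
    intro X O hX T hB he
    obtain rfl := Finset.eq_of_subset_of_card_le (Finset.sdiff_eq_empty_iff_subset.1 he)
      (hX.trans hZ.symm).le
    exact ⟨O, T, hB⟩
  induction j with
  | zero => exact fun X O hX _ T hB _ hc => base X O hX T hB (Finset.card_eq_zero.1 (by omega))
  | succ j ih =>
    intro X O hX g T hB hs hc
    rcases (Z \ X).eq_empty_or_nonempty with he | ⟨s, s1⟩
    · exact base X O hX T hB he
    obtain ⟨s2, s3⟩ := Finset.mem_sdiff.1 s1
    obtain ⟨x, x1, x2, x3⟩ := hs s s2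
    have sx : s ≠ x := fun e => s3 (e ▸ x1)
    have sO : s ∈ O x := by
      rw [← x2, ← hB x x1] at x3
      exact (Finset.mem_insert.1 x3).resolve_left sx
    obtain ⟨y, hy, yx⟩ := Finset.exists_mem_ne (show 1 < X.card by omega) x
    have g' := g.2 x x1 y hy yx s (by rw [T.of y hy x x1 yx.symm]; exact sO)
    have cX := card_sw hX s3 x1
    obtain ⟨O', T'⟩ := g'.tt hr h cX
    obtain ⟨k1, k2⟩ := T.swap hr hX x1 sO T'
    refine ih _ O' cX g' T' (fun t ht => ?_) (fun u hu => ?_) ?_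
    · rcases Finset.mem_insert.1 ht with rfl | ht
      · rw [k1, hB x x1, x2]
      · rw [k2 t ht, hB t (Finset.mem_of_mem_erase ht)]
    · obtain ⟨v, v1, v2, v3⟩ := hs u hu
      by_cases e : v = x
      · exact ⟨s, by simp, by rw [← x2, ← e, v2], v3⟩
      · exact ⟨v, by simp [v1, e], v2, v3⟩
    · have : Z \ insert s (X.erase x) ⊆ (Z \ X).erase s := by
        intro u hu
        simp only [Finset.mem_sdiff, Finset.mem_insert, Finset.mem_erase, not_or, not_and] at hu ⊢
        exact ⟨hu.2.1, hu.1, fun g => sx (iZ s s2 x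
          (by by_contra hn; exact hu.2.2 (fun e => hn (e ▸ hu.1)) g) x2.symm)⟩
      have := Finset.card_le_card this
      rw [Finset.card_erase_of_mem s1] at this
      omega

theorem clean_of (hr : 4 ≤ r) (h : Hyp r G) (R : Finset V) (hR : LL r ≤ R.card)
    (hN : ∀ X ⊆ R, X.card = r → NiceL r G D r X) : ∃ (β : V → V) (U : Finset V), Clean r G β U := by
  classical
  have rR := (LL_ge hr).trans hR
  have john : ∀ (t : V) (d : ℕ) (Y Y' : Finset V), Y ⊆ R → Y' ⊆ R → Y.card + 1 = r →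
      Y'.card + 1 = r → t ∈ Y → t ∈ Y' → (Y \ Y').card = d → Of G D Y t = Of G D Y' t := by
    intro t d
    induction d with
    | zero =>
      intro Y Y' _ _ c1 c2 _ _ he
      rw [Finset.eq_of_subset_of_card_le
        (Finset.sdiff_eq_empty_iff_subset.1 (Finset.card_eq_zero.1 he)) (by omega)]
    | succ d ih =>
      intro Y Y' y1 y2 c1 c2 t1 t2 he
      obtain ⟨a, ha⟩ := Finset.card_pos.1 (show 0 < (Y \ Y').card by omega)
      obtain ⟨b, hb⟩ := Finset.card_pos.1 (show 0 < (Y' \ Y).card by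
        rw [Finset.card_sdiff_comm (show Y'.card = Y.card by omega)]; omega)
      obtain ⟨a1, a2⟩ := Finset.mem_sdiff.1 ha
      obtain ⟨b1, b2⟩ := Finset.mem_sdiff.1 hb
      have cX : (insert b Y).card = r := by rw [Finset.card_insert_of_notMem b2, c1]
      have sX := Finset.insert_subset (y2 b1) y1
      obtain ⟨O, T⟩ := (hN _ sX cX).tt hr h cX
      have k1 := T.of b (by simp) t (by simp [t1]) (fun e => b2 (e ▸ t1))
      have k2 := T.of a (by simp [a1]) t (by simp [t1]) (fun e => a2 (e ▸ t2))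
      rw [Finset.erase_insert b2] at k1
      rw [k1, ← k2]
      refine ih _ Y' ((Finset.erase_subset _ _).trans sX) y2
        (by rw [Finset.card_erase_of_mem (by simp [a1])]; omega) c2
        (by simp [t1, show t ≠ a from fun e => a2 (e ▸ t2)]) t2 ?_
      have : (insert b Y).erase a \ Y' = (Y \ Y').erase a := by
        ext u
        simp only [Finset.mem_sdiff, Finset.mem_erase, Finset.mem_insert]
        grind
      rw [this, Finset.card_erase_of_mem ha]
      omega
  have hY : ∀ t ∈ R, ∃ Y : Finset V, Y ⊆ R ∧ Y.card + 1 = r ∧ t ∈ Y := by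
    intro t ht
    obtain ⟨Y, y1, y2, y3⟩ := Finset.exists_subsuperset_card_eq (n := r - 1)
      (Finset.singleton_subset_iff.2 ht) (by simp; omega) (by omega)
    exact ⟨Y, y2, by omega, y1 (by simp)⟩
  choose! Yt hYt using hY
  let Bl : V → Finset V := fun t => insert t (Of G D (Yt t) t)
  have hB : ∀ X ⊆ R, X.card = r → ∃ O, Tt r G D X O ∧ ∀ t ∈ X, insert t (O t) = Bl t := by
    intro X hX cX
    obtain ⟨O, T⟩ := (hN X hX cX).tt hr h cX
    refine ⟨O, T, fun t ht => ?_⟩
    obtain ⟨y, hy, yt⟩ := Finset.exists_mem_ne (show 1 < X.card by omega) t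
    rw [← T.of y hy t ht yt.symm, john t _ _ (Yt t) ((Finset.erase_subset _ _).trans hX)
      (hYt t (hX ht)).1 (by rw [Finset.card_erase_of_mem hy]; omega) (hYt t (hX ht)).2.1
      (by simp [ht, yt.symm]) (hYt t (hX ht)).2.2 rfl]
  have hD : ∀ t ∈ R, ∀ t' ∈ R, (Bl t).card = r + 4 ∧ ∀ v ∈ Bl t, v ∈ Bl t' → t = t' := by
    intro t ht t' ht'
    obtain ⟨X, x1, x2, x3⟩ := Finset.exists_subsuperset_card_eq (n := r)
      (show {t, t'} ⊆ R by simp [Finset.insert_subset_iff, ht, ht'])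
      (Finset.card_le_two.trans (by omega)) rR
    obtain ⟨O, ⟨⟨W, T⟩, -, -⟩, hO⟩ := hB X x2 x3
    have m1 : t ∈ X := x1 (by simp)
    have m2 : t' ∈ X := x1 (by simp)
    rw [← hO t m1, ← hO t' m2]
    refine ⟨by rw [Finset.card_insert_of_notMem (fun e => T.oX t m1 t e m1), T.cO t m1],
      fun v hv hv' => ?_⟩
    have := T.oX
    have := T.oo
    grind
  let β : V → V := fun v => if g : ∃ t ∈ R, v ∈ Bl t then g.choose else v
  have hβ : ∀ t ∈ R, ∀ v ∈ Bl t, β v = t := by
    intro t ht v hv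
    have g : ∃ t ∈ R, v ∈ Bl t := ⟨t, ht, hv⟩
    simp only [β, dif_pos g]
    exact (hD _ g.choose_spec.1 t ht).2 v g.choose_spec.2 hv
  have hU : ∀ v ∈ R.biUnion Bl, β v ∈ R ∧ v ∈ Bl (β v) := by
    intro v hv
    obtain ⟨t, ht, hv⟩ := Finset.mem_biUnion.1 hv
    rw [hβ t ht v hv]
    exact ⟨ht, hv⟩
  have hfix : ∀ t ∈ R, β t = t := fun t ht => hβ t ht t (Finset.mem_insert_self _ _)
  refine ⟨β, R.biUnion Bl, fun v hv => ?_, fun Y y1 y2 y3 s hs => ?_,
    hR.trans (Finset.card_le_card (fun t ht => Finset.mem_image.2 ⟨t,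
      Finset.mem_biUnion.2 ⟨t, ht, Finset.mem_insert_self _ _⟩, hfix t ht⟩))⟩
  · rw [← (hD _ (hU v hv).1 _ (hU v hv).1).1]
    congr 1
    ext s
    rw [Finset.mem_filter]
    exact ⟨fun g => g.2 ▸ (hU s g.1).2, fun g =>
      ⟨Finset.mem_biUnion.2 ⟨_, (hU v hv).1, g⟩, hβ _ (hU v hv).1 s g⟩⟩
  · obtain ⟨t0, t1, t2⟩ := Finset.exists_mem_notMem_of_card_lt_card (s := Y.image β) (t := R)
      (lt_of_le_of_lt Finset.card_image_le (by omega))
    have t3 : ∀ y ∈ Y, β y ≠ t0 := fun y hy e => t2 (Finset.mem_image.2 ⟨y, hy, e⟩)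
    have t4 : t0 ∉ Y := fun e => t3 t0 e (hfix t0 t1)
    have cZ : (insert t0 Y).card = r := by rw [Finset.card_insert_of_notMem t4, y2]
    have iZ : ∀ p ∈ insert t0 Y, ∀ q ∈ insert t0 Y, β p = β q → p = q := by
      have := hfix t0 t1
      intro p hp q hq
      grind
    have zU : ∀ p ∈ insert t0 Y, β p ∈ R ∧ p ∈ Bl (β p) := by
      intro p hp
      rcases Finset.mem_insert.1 hp with rfl | hp
      · rw [hfix p t1]
        exact ⟨t1, Finset.mem_insert_self _ _⟩
      · exact hU p (y1 hp)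
    have xR : (insert t0 Y).image β ⊆ R := fun v hv => by
      obtain ⟨p, hp, rfl⟩ := Finset.mem_image.1 hv
      exact (zU p hp).1
    have cX : ((insert t0 Y).image β).card = r := by
      rw [Finset.card_image_of_injOn (fun p hp q hq => iZ p hp q hq), cZ]
    obtain ⟨O, T, hO⟩ := hB _ xR cX
    obtain ⟨O', T', hO'⟩ := walk hr h Bl β cZ iZ r _ O cX (hN _ xR cX) T
      (fun t ht => by rw [hfix t (xR ht), hO t ht])
      (fun p hp => ⟨β p, Finset.mem_image_of_mem _ hp, hfix _ (zU p hp).1, (zU p hp).2⟩)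
      ((Finset.card_le_card Finset.sdiff_subset).trans cZ.le)
    obtain ⟨t, u1, u2, u3⟩ := T'.nb t0 (by simp) s (by rwa [Finset.erase_insert t4])
    have u4 : s ∈ Bl (β t) := hO' t u1 ▸ Finset.mem_insert_of_mem u3
    exact ⟨Finset.mem_biUnion.2 ⟨_, (zU t u1).1, u4⟩, t, (Finset.mem_insert.1 u1).resolve_left u2,
      hβ _ (zU t u1).1 s u4⟩

end Pool.Agent.MP_038f7f_co.H95
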