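import Mathlib
import Pool.Agent.MP_038f7f_co.h95.OneA

/-!
The counting: almost all `r`-sets are nice of level `r`, and the lower bound.
-/

set_option autoImplicit false

namespace Pool.Agent.MP_038f7f_co.H95

open Finset

variable {r D : ℕ} {V : Type} [Fintype V] [DecidableEq V] {G : Finset (Finset V)}

theorem dc2 (hr : 4 ≤ r) (g : Finset V → ℕ) :
    ∑ X ∈ powersetCard r univ, ∑ x ∈ X, g (X.erase x) =
      (Fintype.card V - (r - 1)) * ∑ Y ∈ powersetCard (r - 1) univ, g Y := by
  rw [dc (show r - 1 + 1 = r by omega) (fun e x => g (e.erase x)), Finset.mul_sum]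
  refine Finset.sum_congr rfl (fun Y hY => ?_)
  rw [Finset.sum_congr rfl (fun s hs => by rw [Finset.erase_insert (Finset.mem_compl.1 hs)]),
    Finset.sum_const, Finset.card_compl, Finset.mem_powersetCard_univ.1 hY, smul_eq_mul]

theorem sumN (hr : 4 ≤ r) (f : Finset V → V → ℕ) (b : ℕ)
    (hb : ∀ e : Finset V, e.card = r → ∑ x ∈ e, f e x ≤ b) :
    ∑ Y ∈ powersetCard (r - 1) univ, ∑ s ∈ N G Y, f (insert s Y) s ≤ b * G.card := by
  have h1 := dc (V := V) (show r - 1 + 1 = r by omega) (fun e x => if e ∈ G then f e x else 0)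
  have h2 : ∀ Y : Finset V, ∑ s ∈ N G Y, f (insert s Y) s =
      ∑ s ∈ Yᶜ, if insert s Y ∈ G then f (insert s Y) s else 0 := by
    intro Y
    rw [← Finset.sum_filter]
    congr 1
    ext s
    simp [mem_N]
  rw [Finset.sum_congr rfl (fun Y _ => h2 Y), ← h1]
  calc _ ≤ ∑ e ∈ powersetCard r univ, if e ∈ G then b else 0 :=
        Finset.sum_le_sum (fun e he => by
          split_ifs
          · exact hb e (Finset.mem_powersetCard_univ.1 he)
          · simp)
    _ ≤ b * G.card := by
        rw [← Finset.sum_filter, Finset.sum_const, smul_eq_mul, mul_comm]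
        exact Nat.mul_le_mul_left _ (Finset.card_le_card (fun e he => (Finset.mem_filter.1 he).2))

theorem sumLa (hr : 4 ≤ r) :
    ∑ Y ∈ powersetCard (r - 1) univ, La r G D Y ≤ 2 * r * G.card := by
  refine le_trans (le_of_eq (Finset.sum_congr rfl (fun Y _ => ?_))) (sumN hr
    (fun e x => if sm G D (e.erase x) then om r G D e else 0) (2 * r) (fun e he => ?_))
  · rw [Finset.sum_congr rfl (fun s hs => by rw [Finset.erase_insert (mem_N.1 hs).1]), La]
    split_ifs <;> simp
  · rw [← Finset.sum_filter, Finset.sum_const, smul_eq_mul]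
    exact sg_om he

open Classical in
theorem bad_count (hr : 4 ≤ r) :
    D * ((powersetCard r univ).filter (fun X => ¬Good G D X)).card ≤
      (Fintype.card V).choose (r - 1) * (D * (D + r * (D * D))) +
        (Fintype.card V - (r - 1)) * (r * G.card) := by
  let Φ : Finset V → Finset V := fun Y => if sm G D Y then N G Y ∪ Y.biUnion (fun y =>
    (N G Y).biUnion (fun s => if sm G D (insert s (Y.erase y)) then N G (insert s (Y.erase y))
      else ∅)) else Yᶜ
  have h1 : (powersetCard r univ).filter (fun X => ¬Good G D X) ⊆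
      (powersetCard (r - 1) univ).biUnion (fun Y => (Φ Y).image (fun x => insert x Y)) := by
    intro X hX
    obtain ⟨x1, x2⟩ := Finset.mem_filter.1 hX
    rw [Finset.mem_powersetCard_univ] at x1
    suffices g : ∃ x ∈ X, x ∈ Φ (X.erase x) by
      obtain ⟨x, hx, g⟩ := g
      exact Finset.mem_biUnion.2 ⟨X.erase x, Finset.mem_powersetCard_univ.2
        (by rw [Finset.card_erase_of_mem hx, x1]), Finset.mem_image.2 ⟨x, g, Finset.insert_erase hx⟩⟩
    by_contra hc
    push Not at hc
    have k1 : ∀ x ∈ X, sm G D (X.erase x) := fun x hx => by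
      by_contra hn
      exact hc x hx (by simp only [Φ, if_neg hn]; simp)
    obtain ⟨x0, hx0⟩ := Finset.card_pos.1 (show 0 < X.card by omega)
    have k0 : X ∉ G := fun g => hc x0 hx0 (by
      simp only [Φ, if_pos (k1 x0 hx0)]
      exact Finset.mem_union_left _ (mem_N.2 ⟨by simp, by rwa [Finset.insert_erase hx0]⟩))
    refine x2 ⟨k0, k1, fun x hx y hy n s s1 s2 s3 => hc x hx ?_⟩
    simp only [Φ, if_pos (k1 x hx)]
    refine Finset.mem_union_right _ (Finset.mem_biUnion.2 ⟨y, by simp [hy, n.symm],
      Finset.mem_biUnion.2 ⟨s, s1, ?_⟩⟩)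
    rw [if_pos s3]
    have xs : x ≠ s := fun e => (mem_N.1 s2).1 (by simp [← e, hx, n])
    refine mem_N.2 ⟨by simp [xs], ?_⟩
    rw [Finset.insert_comm, Finset.erase_right_comm, Finset.insert_erase (by simp [hx, n])]
    exact (mem_N.1 s2).2
  have h2 : ∀ Y ∈ powersetCard (r - 1) (univ : Finset V), D * (Φ Y).card ≤
      D * (D + r * (D * D)) + (Fintype.card V - (r - 1)) * (N G Y).card := by
    intro Y hY
    rw [Finset.mem_powersetCard_univ] at hY
    by_cases g : sm G D Y
    · simp only [Φ, if_pos g]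
      refine le_trans (Nat.mul_le_mul_left _ ((Finset.card_union_le _ _).trans
        (add_le_add g ?_))) (Nat.le_add_right _ _)
      refine (Finset.card_biUnion_le_card_mul _ _ (D * D) (fun y _ => ?_)).trans
        (Nat.mul_le_mul_right _ (by omega))
      refine (Finset.card_biUnion_le_card_mul _ _ D (fun s _ => ?_)).trans
        (Nat.mul_le_mul_right _ g)
      split_ifs with g'
      · exact g'
      · simp
    · simp only [Φ, if_neg g]
      rw [Finset.card_compl, hY, mul_comm]
      exact le_trans (Nat.mul_le_mul_left _ (not_le.1 g).le) (Nat.le_add_left _ _)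
  have h3 := sumN (G := G) hr (fun _ _ => 1) r (fun e he => by simp [he])
  simp only [Finset.sum_const, smul_eq_mul, mul_one] at h3
  calc _ ≤ D * ∑ Y ∈ powersetCard (r - 1) univ, (Φ Y).card :=
        Nat.mul_le_mul_left _ ((Finset.card_le_card h1).trans (Finset.card_biUnion_le.trans
          (Finset.sum_le_sum (fun Y _ => Finset.card_image_le))))
    _ ≤ _ := by
        rw [Finset.mul_sum]
        refine (Finset.sum_le_sum h2).trans ?_
        rw [Finset.sum_add_distrib, Finset.sum_const, ← Finset.mul_sum, Finset.card_powersetCard,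
          Finset.card_univ, smul_eq_mul]
        exact add_le_add le_rfl (Nat.mul_le_mul_left _ h3)

open Classical in
/-- the sets that are not nice of level `j` -/
noncomputable def Bj (r : ℕ) (G : Finset (Finset V)) (D j : ℕ) : Finset (Finset V) :=
  (powersetCard r univ).filter (fun X => ¬NiceL r G D j X)

/-- load of a heavy set -/
def Lh (r : ℕ) (G : Finset (Finset V)) (D : ℕ) (Y : Finset V) : ℕ :=
  if mu r + 1 < (N G Y).card then La r G D Y else 0

open Classical in
theorem countA (hr : 4 ≤ r) (h : Hyp r G) :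
    mu r * (Fintype.card V).choose r + (Bj r G D 0).card ≤
      (Fintype.card V - (r - 1)) * (2 * r * G.card) +
        (mu r + 1) * ((powersetCard r univ).filter (fun X => ¬Good G D X)).card := by
  have h1 : ∀ X ∈ powersetCard r (univ : Finset V), mu r + (if ¬NiceL r G D 0 X then 1 else 0) ≤
      SS r G D X + (mu r + 1) * (if ¬Good G D X then 1 else 0) := by
    intro X hX
    by_cases g : Good G D X
    · have := (good_cases hr h (Finset.mem_powersetCard_univ.1 hX) g).1
      by_cases g1 : NiceL r G D 0 X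
      · rw [if_neg (not_not.2 g1)]
        omega
      · have : ¬SS r G D X ≤ mu r + 1 := fun e => g1 ⟨g, e⟩
        rw [if_pos g1]
        omega
    · rw [if_pos g]
      split_ifs <;> omega
  have h2 := Finset.sum_le_sum h1
  rw [Finset.sum_add_distrib, Finset.sum_add_distrib, ← Finset.mul_sum, ← Finset.card_filter,
    ← Finset.card_filter, Finset.sum_const, Finset.card_powersetCard, Finset.card_univ, smul_eq_mul,
    mul_comm] at h2
  refine h2.trans (add_le_add ?_ le_rfl)
  unfold SS
  rw [dc2 hr]
  exact Nat.mul_le_mul_left _ (sumLa hr)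

open Classical in
theorem countB (hr : 4 ≤ r) (h : Hyp r G) :
    mu r * (Fintype.card V).choose r +
      (Fintype.card V - (r - 1)) * ∑ Y ∈ powersetCard (r - 1) univ, Lh r G D Y ≤
      (Fintype.card V - (r - 1)) * (2 * r * G.card) + mu r * (Bj r G D 0).card := by
  have h1 : ∀ X ∈ powersetCard r (univ : Finset V), mu r + ∑ x ∈ X, Lh r G D (X.erase x) ≤
      SS r G D X + mu r * (if ¬NiceL r G D 0 X then 1 else 0) := by
    intro X hX
    by_cases g : NiceL r G D 0 X
    · have k1 := (good_cases hr h (Finset.mem_powersetCard_univ.1 hX) g.1).1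
      rw [Finset.sum_eq_zero (fun x hx => ?_)]
      · omega
      · have k2 := La_ge (r := r) hr (g.1.small x hx)
        have k3 : La r G D (X.erase x) ≤ SS r G D X :=
          Finset.single_le_sum (f := fun x => La r G D (X.erase x)) (fun _ _ => Nat.zero_le _) hx
        have k4 := g.2
        exact if_neg (by omega)
    · have : ∑ x ∈ X, Lh r G D (X.erase x) ≤ SS r G D X :=
        Finset.sum_le_sum (fun x _ => by unfold Lh; split_ifs <;> omega)
      rw [if_pos g]
      omega
  have h2 := Finset.sum_le_sum h1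
  rw [Finset.sum_add_distrib, Finset.sum_add_distrib, ← Finset.mul_sum, ← Finset.card_filter,
    Finset.sum_const, Finset.card_powersetCard, Finset.card_univ, smul_eq_mul,
    mul_comm, dc2 hr] at h2
  refine h2.trans (add_le_add ?_ le_rfl)
  unfold SS
  rw [dc2 hr]
  exact Nat.mul_le_mul_left _ (sumLa hr)

open Classical in
theorem countC (hr : 4 ≤ r) (j : ℕ) : (Bj r G D (j + 1)).card ≤ (Bj r G D 0).card +
    (r * (r * (mu r + 1)) * (Bj r G D j).card +
      r * ((Fintype.card V - (r - 1)) * ∑ Y ∈ powersetCard (r - 1) univ, Lh r G D Y)) := by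
  let Ψ : Finset V → V → Finset (Finset V) := fun Y y =>
    if sm G D Y ∧ ¬NiceL r G D j (insert y Y) then Y.biUnion (fun s => (N G Y).image
      (fun x => insert x (insert y (Y.erase s)))) else ∅
  have h1 : Bj r G D (j + 1) ⊆ Bj r G D 0 ∪
      (powersetCard (r - 1) univ).biUnion (fun Y => Yᶜ.biUnion (Ψ Y)) := by
    intro X hX
    obtain ⟨x1, x2⟩ := Finset.mem_filter.1 hX
    by_cases g : NiceL r G D 0 X
    swap
    · exact Finset.mem_union_left _ (Finset.mem_filter.2 ⟨x1, g⟩)
    rw [Finset.mem_powersetCard_univ] at x1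
    have k : ¬∀ x ∈ X, ∀ y ∈ X, y ≠ x → ∀ s ∈ Of G D (X.erase y) x,
      NiceL r G D j (insert s (X.erase x)) := fun k => x2 ⟨g, k⟩
    push Not at k
    obtain ⟨x, hx, y, hy, n, s, s1, s2⟩ := k
    obtain ⟨s3, s4⟩ := Finset.mem_filter.1 s1
    obtain ⟨s5, s6⟩ := mem_N.1 s3
    have sy : s ≠ y := fun e => g.1.ne (by rwa [e, Finset.insert_erase hy] at s6)
    have sx : s ≠ x := fun e => s5 (by simp [e, hx, n.symm])
    have s7 : s ∉ (X.erase y).erase x := fun e => s5 (Finset.mem_of_mem_erase e)
    have xy : x ∈ X.erase y := by simp [hx, n.symm]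
    have e1 : insert y ((X.erase y).erase x) = X.erase x := by
      rw [Finset.erase_right_comm, Finset.insert_erase (by simp [hy, n])]
    refine Finset.mem_union_right _ (Finset.mem_biUnion.2 ⟨insert s ((X.erase y).erase x),
      Finset.mem_powersetCard_univ.2 (by
        rw [Finset.card_insert_of_notMem s7, Finset.card_erase_of_mem xy,
          Finset.card_erase_of_mem hy]; omega),
      Finset.mem_biUnion.2 ⟨y, by simp [sy.symm], ?_⟩⟩)
    simp only [Ψ]
    rw [if_pos ⟨s4, by rwa [Finset.insert_comm, e1]⟩]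
    refine Finset.mem_biUnion.2 ⟨s, by simp, Finset.mem_image.2 ⟨x, mem_N.2 ⟨by simp [sx.symm], ?_⟩,
      by rw [Finset.erase_insert s7, e1, Finset.insert_erase hx]⟩⟩
    rwa [Finset.insert_comm, Finset.insert_erase xy]
  have h2 : ∀ Y ∈ powersetCard (r - 1) (univ : Finset V), ∀ y, (Ψ Y y).card ≤
      r * (mu r + 1) * (if ¬NiceL r G D j (insert y Y) then 1 else 0) + r * Lh r G D Y := by
    intro Y hY y
    rw [Finset.mem_powersetCard_univ] at hY
    simp only [Ψ]
    by_cases g : sm G D Y ∧ ¬NiceL r G D j (insert y Y)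
    · rw [if_pos g, if_pos g.2, mul_one, ← mul_add]
      refine (Finset.card_biUnion_le_card_mul _ _ (mu r + 1 + Lh r G D Y)
        (fun s _ => Finset.card_image_le.trans ?_)).trans (Nat.mul_le_mul_right _ (by omega))
      have := La_ge (r := r) hr g.1
      unfold Lh
      split_ifs <;> omega
    · rw [if_neg g]
      simp
  have h3 := dc (V := V) (show r - 1 + 1 = r by omega)
    (fun e _ => if ¬NiceL r G D j e then 1 else 0)
  have h4 : ∑ e ∈ powersetCard r (univ : Finset V), ∑ _x ∈ e,
      (if ¬NiceL r G D j e then 1 else 0) = r * (Bj r G D j).card := by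
    rw [Bj, Finset.card_filter, Finset.mul_sum]
    exact Finset.sum_congr rfl (fun e he => by
      rw [Finset.sum_const, Finset.mem_powersetCard_univ.1 he, smul_eq_mul])
  refine (Finset.card_le_card h1).trans ((Finset.card_union_le _ _).trans (add_le_add le_rfl ?_))
  calc _ ≤ ∑ Y ∈ powersetCard (r - 1) (univ : Finset V), ∑ y ∈ Yᶜ,
        (r * (mu r + 1) * (if ¬NiceL r G D j (insert y Y) then 1 else 0) + r * Lh r G D Y) :=
        Finset.card_biUnion_le.trans (Finset.sum_le_sum (fun Y hY =>
          Finset.card_biUnion_le.trans (Finset.sum_le_sum (fun y _ => h2 Y hY y))))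
    _ = r * (mu r + 1) * ∑ Y ∈ powersetCard (r - 1) (univ : Finset V), ∑ y ∈ Yᶜ,
          (if ¬NiceL r G D j (insert y Y) then 1 else 0) +
        r * ((Fintype.card V - (r - 1)) * ∑ Y ∈ powersetCard (r - 1) univ, Lh r G D Y) := by
        rw [Finset.mul_sum, Finset.mul_sum, Finset.mul_sum, ← Finset.sum_add_distrib]
        refine Finset.sum_congr rfl (fun Y hY => ?_)
        rw [Finset.sum_add_distrib, ← Finset.mul_sum, Finset.sum_const, Finset.card_compl,
          Finset.mem_powersetCard_univ.1 hY, smul_eq_mul]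
        ring
    _ = _ := by rw [← h3, h4]; ring

theorem sample (Bad : Finset (Finset V)) {L : ℕ} (hr : r ≤ L) (hL : L ≤ Fintype.card V)
    (hB : ∀ X ∈ Bad, X.card = r) (hc : L.choose r * Bad.card < (Fintype.card V).choose r) :
    ∃ R : Finset V, R.card = L ∧ ∀ X ⊆ R, X ∉ Bad := by
  by_contra hn
  push Not at hn
  have h1 : powersetCard L (univ : Finset V) ⊆
      Bad.biUnion (fun X => (powersetCard L univ).filter (fun R => X ⊆ R)) := by
    intro R hR
    obtain ⟨X, x1, x2⟩ := hn R (Finset.mem_powersetCard_univ.1 hR)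
    exact Finset.mem_biUnion.2 ⟨X, x2, Finset.mem_filter.2 ⟨hR, x1⟩⟩
  have h2 := (Finset.card_le_card h1).trans (Finset.card_biUnion_le_card_mul _ _
    ((Fintype.card V - r).choose (L - r)) (fun X hX => by
      rw [Finset.card_filter_powersetCard_subset _ _ _ (Finset.subset_univ _)
        (by rw [hB X hX]; exact hr), hB X hX, Finset.card_univ]))
  rw [Finset.card_powersetCard, Finset.card_univ] at h2
  have h3 := Nat.choose_mul (n := Fintype.card V) hr
  have h4 : 0 < (Fintype.card V - r).choose (L - r) := Nat.choose_pos (by omega)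
  have h5 := Nat.mul_le_mul_right (L.choose r) h2
  have h6 := Nat.mul_lt_mul_of_pos_right hc h4
  rw [h3] at h5
  nlinarith

/-- constant for the sets that are not nice -/
def K2 (r : ℕ) : ℕ := r * r + (mu r + 1) * (r + r * (r * (r * (r + 3))))

/-- constants for the levels -/
def KK (r : ℕ) : ℕ → ℕ
  | 0 => K2 r
  | j + 1 => K2 r + (r * (r * (mu r + 1)) * KK r j + r * (r * r + mu r * K2 r))

theorem levels (hr : 4 ≤ r) (h : Hyp r G) (hD : 0 < D)
    (hn : D * (D + r * (D * D)) ≤ Fintype.card V - (r - 1))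
    (hG : D * (2 * G.card) ≤ (D * ((r - 1) * (r + 3)) + 1) * (Fintype.card V).choose (r - 1))
    (j : ℕ) : D * (Bj r G D j).card ≤ KK r j * (Fintype.card V).choose r := by
  classical
  have e0 := Nat.choose_succ_right_eq (Fintype.card V) (r - 1)
  rw [show r - 1 + 1 = r by omega] at e0
  have a0 := bad_count (G := G) (D := D) hr
  have a1 := countA (D := D) hr h
  have a2 := countB (D := D) hr h
  have a3 := countC (G := G) (D := D) hr
  generalize (Fintype.card V).choose r = c at *
  generalize (Fintype.card V).choose (r - 1) = c1 at *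
  generalize Fintype.card V - (r - 1) = m at *
  generalize ((powersetCard r univ).filter (fun X => ¬Good G D X)).card = b at *
  generalize ∑ Y ∈ powersetCard (r - 1) univ, Lh r G D Y = l at *
  generalize G.card = g at *
  have b1 : D * (m * (2 * r * g)) ≤ D * (mu r * c) + r * r * c := by
    calc _ = r * m * (D * (2 * g)) := by ring
      _ ≤ r * m * ((D * ((r - 1) * (r + 3)) + 1) * c1) := Nat.mul_le_mul_left _ hG
      _ = r * (D * ((r - 1) * (r + 3)) + 1) * (c1 * m) := by ring
      _ = _ := by rw [← e0, mu]; ring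
  have b2 : g ≤ r * (r + 3) * c1 := by
    have k1 : D * ((r - 1) * (r + 3)) + 1 ≤ D * (r * (r + 3)) := by
      obtain ⟨t, rfl⟩ : ∃ t, r = t + 1 := ⟨r - 1, by omega⟩
      simp only [Nat.add_sub_cancel]
      nlinarith
    have k2 : D * (2 * g) ≤ D * (r * (r + 3) * c1) := by
      rw [← mul_assoc D (r * (r + 3))]
      exact hG.trans (Nat.mul_le_mul_right _ k1)
    have := Nat.le_of_mul_le_mul_left k2 hD
    omega
  have b3 : D * b ≤ (r + r * (r * (r * (r + 3)))) * c := by
    calc _ ≤ c1 * m + m * (r * (r * (r + 3) * c1)) := a0.trans (by gcongr)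
      _ = (1 + r * (r * (r + 3))) * (c1 * m) := by ring
      _ = _ := by rw [← e0]; ring
  have b4 : D * (Bj r G D 0).card ≤ K2 r * c := by
    have k1 := Nat.mul_le_mul_left D a1
    have k2 := Nat.mul_le_mul_left (mu r + 1) b3
    unfold K2
    nlinarith
  have b5 : D * (m * l) ≤ (r * r + mu r * K2 r) * c := by
    have k1 := Nat.mul_le_mul_left D a2
    have k2 := Nat.mul_le_mul_left (mu r) b4
    nlinarith
  induction j with
  | zero => exact b4
  | succ j ih =>
    have k1 := Nat.mul_le_mul_left D (a3 j)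
    have k2 := Nat.mul_le_mul_left (r * (r * (mu r + 1))) ih
    have k3 := Nat.mul_le_mul_left r b5
    unfold KK
    nlinarith

theorem lower (hr : 4 ≤ r) : ∃ D n₀ : ℕ, 0 < D ∧ ∀ (n : ℕ) (G : Finset (Finset (Fin n))), n₀ ≤ n →
    Hyp r G → ¬r + 4 ∣ n → (D * ((r - 1) * (r + 3)) + 1) * n.choose (r - 1) < D * (2 * G.card) := by
  classical
  obtain ⟨D, hD⟩ : ∃ D, D = (LL r).choose r * KK r r + 1 := ⟨_, rfl⟩
  refine ⟨D, D * (D + r * (D * D)) + r + LL r, by omega, fun n G hn h hd => ?_⟩
  by_contra hc
  have h1 := levels (D := D) hr h (by omega) (by rw [Fintype.card_fin]; omega)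
    (by rw [Fintype.card_fin]; omega) r
  have h2 : 0 < (Fintype.card (Fin n)).choose r := Nat.choose_pos (by rw [Fintype.card_fin]; omega)
  obtain ⟨R, r1, r2⟩ := sample (r := r) (Bj r G D r) (LL_ge hr) (by rw [Fintype.card_fin]; omega)
    (fun X hX => Finset.mem_powersetCard_univ.1 (Finset.mem_filter.1 hX).1) (by
      refine Nat.lt_of_mul_lt_mul_left (a := D) ?_
      have := Nat.mul_le_mul_left ((LL r).choose r) h1
      nlinarith)
  obtain ⟨β, U, hU⟩ := clean_of (D := D) hr h R r1.ge (fun X x1 x2 => by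
    by_contra hn
    exact r2 X x1 (Finset.mem_filter.2 ⟨Finset.mem_powersetCard_univ.2 x2, hn⟩))
  exact hd (by simpa using hU.dvd hr h)

end Pool.Agent.MP_038f7f_co.H95
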