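import Mathlib
import Pool.Agent.MP_038f7f_co.h95.OneB

/-!
The two bounds for hypergraphs on `Fin n`, `r ≥ 4`.
-/

set_option autoImplicit false

namespace Pool.Agent.MP_038f7f_co.H95

open Finset

theorem blk_le (n k b : ℕ) (hk : 0 < k) :
    (univ.filter (fun t : Fin n => t.val / k = b)).card ≤ k := by
  have : (univ.filter (fun t : Fin n => t.val / k = b)).card ≤ (Finset.range k).card := by
    refine Finset.card_le_card_of_injOn (fun t => t.val % k) ?_ ?_
    · intro t _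
      simpa using Nat.mod_lt _ hk
    · intro s hs t ht h
      have h1 : s.val / k = b := (Finset.mem_filter.1 hs).2
      have h2 : t.val / k = b := (Finset.mem_filter.1 ht).2
      have h3 : s.val % k = t.val % k := h
      apply Fin.ext
      rw [← Nat.div_add_mod s.val k, ← Nat.div_add_mod t.val k, h1, h2, h3]
  simpa using this

theorem blk_eq (n k : ℕ) (hk : 0 < k) (hd : k ∣ n) (v : Fin n) :
    (univ.filter (fun t : Fin n => t.val / k = v.val / k)).card = k := by
  refine le_antisymm (blk_le n k _ hk) ?_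
  obtain ⟨m, rfl⟩ := hd
  have h1 : k * (v.val / k + 1) ≤ k * m := Nat.mul_le_mul_left _ (Nat.div_lt_of_lt_mul v.2)
  rw [mul_add, mul_one] at h1
  have : (univ : Finset (Fin k)).card ≤
      (univ.filter (fun t : Fin (k * m) => t.val / k = v.val / k)).card := by
    refine Finset.card_le_card_of_injOn
      (fun t => (⟨k * (v.val / k) + t.val, by have := t.2; omega⟩ : Fin (k * m))) ?_ ?_
    · intro t _
      refine Finset.mem_filter.2 ⟨mem_univ _, ?_⟩
      show (k * (v.val / k) + t.val) / k = v.val / k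
      rw [Nat.mul_add_div hk, Nat.div_eq_of_lt t.2, add_zero]
    · intro s _ t _ h
      have := congrArg Fin.val h
      simp only at this
      apply Fin.ext
      omega
  simpa using this

theorem exists_sat (r : ℕ) {m : ℕ} (F : Finset (Finset (Fin m))) (hF : F.Nonempty) (n : ℕ) :
    ∃ G : Finset (Finset (Fin n)), (∀ e ∈ G, e.card = r) ∧
      (¬∃ f : Fin m ↪ Fin n, ∀ e ∈ F, e.map f ∈ G) ∧
      ∀ s : Finset (Fin n), s.card = r → s ∉ G →
        ∃ f : Fin m ↪ Fin n, ∀ e ∈ F, e.map f ∈ insert s G := by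
  classical
  obtain ⟨G, hG, hmax⟩ := Finset.exists_max_image
    ((univ : Finset (Finset (Finset (Fin n)))).filter (fun G => (∀ e ∈ G, e.card = r) ∧
      ¬∃ f : Fin m ↪ Fin n, ∀ e ∈ F, e.map f ∈ G)) Finset.card ⟨∅, by
        obtain ⟨e, he⟩ := hF
        refine Finset.mem_filter.2 ⟨mem_univ _, by simp, ?_⟩
        rintro ⟨f, hf⟩
        simpa using hf e he⟩
  obtain ⟨a, b⟩ := (Finset.mem_filter.1 hG).2
  refine ⟨G, a, b, fun s hs hs' => ?_⟩
  by_contra hc
  have := hmax (insert s G) (Finset.mem_filter.2 ⟨mem_univ _, fun e he => by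
    rcases Finset.mem_insert.1 he with rfl | he
    · exact hs
    · exact a e he, hc⟩)
  rw [Finset.card_insert_of_notMem hs'] at this
  omega

theorem choose_ev (d : ℕ) {ε : ℝ} (hε : 0 < ε) :
    ∃ n₀ : ℕ, ∀ n, n₀ ≤ n → (1 - ε) * ((n : ℝ) ^ d / d.factorial) ≤ n.choose d := by
  obtain ⟨n₀, h⟩ := Filter.eventually_atTop.1 ((isEquivalent_choose d).isLittleO.def hε)
  refine ⟨n₀, fun n hn => ?_⟩
  have h1 := h n hn
  simp only [Pi.sub_apply, Real.norm_eq_abs] at h1
  rw [abs_of_nonneg (show (0 : ℝ) ≤ (n : ℝ) ^ d / d.factorial by positivity)] at h1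
  linarith [(abs_le.1 h1).1]

theorem main4 {r : ℕ} (hr : 4 ≤ r) : ∃ (m : ℕ) (F : Finset (Finset (Fin m))), F.Nonempty ∧
    (∀ e ∈ F, e.card = r) ∧ ∃ c : ℝ, 0 < c ∧ ∃ n₀ : ℕ, ∀ n, n₀ ≤ n →
      (r + 4 ∣ n → ∃ G : Finset (Finset (Fin n)), ((∀ e ∈ G, e.card = r) ∧
        (¬∃ f : Fin m ↪ Fin n, ∀ e ∈ F, e.map f ∈ G) ∧
        ∀ s : Finset (Fin n), s.card = r → s ∉ G →
          ∃ f : Fin m ↪ Fin n, ∀ e ∈ F, e.map f ∈ insert s G) ∧
        (G.card : ℝ) ≤ ((r : ℝ) + 3) / (2 * (r - 2).factorial) * (n : ℝ) ^ (r - 1)) ∧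
      (¬r + 4 ∣ n → ∀ G : Finset (Finset (Fin n)), ((∀ e ∈ G, e.card = r) ∧
        (¬∃ f : Fin m ↪ Fin n, ∀ e ∈ F, e.map f ∈ G) ∧
        ∀ s : Finset (Fin n), s.card = r → s ∉ G →
          ∃ f : Fin m ↪ Fin n, ∀ e ∈ F, e.map f ∈ insert s G) →
        (((r : ℝ) + 3) / (2 * (r - 2).factorial) + c) * (n : ℝ) ^ (r - 1) ≤ G.card) := by
  classical
  obtain ⟨m, A0, h0, hc⟩ := exists_base r
  obtain ⟨D, n₁, hD, hl⟩ := lower hr
  obtain ⟨a, ha⟩ : ∃ a : ℕ, a = (r - 1) * (r + 3) := ⟨_, rfl⟩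
  have hD' : (0 : ℝ) < D := by exact_mod_cast hD
  obtain ⟨n₂, h2⟩ := choose_ev (r - 1) (ε := 1 / (2 * (D * a + 1))) (by positivity)
  let F : Finset (Finset (Fin m)) := univ.filter (fun e => e.card = r ∧ Ed A0 e)
  have br : ∀ (n : ℕ) (G : Finset (Finset (Fin n))), (∃ f : Fin m ↪ Fin n, ∀ e ∈ F, e.map f ∈ G) ↔
      ∃ A : Cl r → Finset (Fin n), IsCopy (fun e => e ∈ G) A := by
    intro n G
    rw [← contains_iff h0 hc]
    simp [F]
  have hf : (0 : ℝ) < (r - 1).factorial := by positivity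
  have eα : ((r : ℝ) + 3) / (2 * (r - 2).factorial) = a / (2 * (r - 1).factorial) := by
    obtain ⟨t, rfl⟩ : ∃ t, r = t + 2 := ⟨r - 2, by omega⟩
    rw [ha, show t + 2 - 1 = t + 1 from rfl, Nat.add_sub_cancel, Nat.factorial_succ]
    push_cast
    field_simp
  refine ⟨m, F, ?_, fun e he => (Finset.mem_filter.1 he).2.1, 1 / (4 * D * (r - 1).factorial),
    by positivity, n₁ + n₂ + (r + 4) * LL r, fun n hn => ⟨fun hd => ?_, fun hd G hG => ?_⟩⟩
  · have hne : ∀ a, (A0 a).Nonempty := fun a =>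
      Finset.card_pos.1 (by rw [h0.card]; exact sz_pos hr a)
    choose ρ hρ using hne
    refine ⟨univ.image (fun i : Fin r => ρ (cen (.inl i))), Finset.mem_filter.2 ⟨mem_univ _,
      (Finset.card_image_of_injective _ (fun x y e => ?_)).trans (by simp), Or.inl fun v hv => ?_⟩⟩
    · by_contra hn
      exact h0.ne (hρ (cen (.inl x))) (hρ (cen (.inl y))) (by simpa using hn) e
    · obtain ⟨i, -, rfl⟩ := Finset.mem_image.1 hv
      exact ⟨i, hρ _⟩
  · have hb := fun b => blk_le n (r + 4) b (by omega)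
    refine ⟨G0 r (fun t : Fin n => t.val / (r + 4)), ⟨fun e he => (mem_G0.1 he).1,
      fun g => ?_, fun s hs hs' => (br n _).2 (G0_sat hr _ (blk_eq n _ (by omega) hd) ?_ s hs hs')⟩,
      ?_⟩
    · obtain ⟨A, hA⟩ := (br n _).1 g
      exact G0_free hr _ hb A hA
    · have := Finset.card_le_mul_card_image (f := fun t : Fin n => t.val / (r + 4)) univ (r + 4)
        (fun b _ => hb b)
      rw [Finset.card_univ, Fintype.card_fin] at this
      exact Nat.le_of_mul_le_mul_left (le_trans (le_trans (Nat.le_add_left _ _) hn) this) (by omega)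
    · have k1 := G0_card hr (fun t : Fin n => t.val / (r + 4)) hb
      rw [Fintype.card_fin, ← ha] at k1
      have k2 : (2 : ℝ) * (G0 r (fun t : Fin n => t.val / (r + 4))).card ≤ a * n.choose (r - 1) := by
        exact_mod_cast k1
      have k3 := mul_le_mul_of_nonneg_left (Nat.choose_le_pow_div (α := ℝ) (r - 1) n)
        (Nat.cast_nonneg (α := ℝ) a)
      have k4 : (a : ℝ) / (2 * (r - 1).factorial) * (n : ℝ) ^ (r - 1) =
        a * ((n : ℝ) ^ (r - 1) / (r - 1).factorial) / 2 := by field_simp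
      rw [eα, k4]
      linarith
  · have k1 := hl n G (by omega) ⟨hG.1, fun A hA => hG.2.1 ((br n _).2 ⟨A, hA⟩),
      fun X x1 x2 => (br n _).1 (hG.2.2 X x1 x2)⟩ hd
    rw [← ha] at k1
    have k2 : ((D : ℝ) * a + 1) * n.choose (r - 1) ≤ D * (2 * G.card) := by exact_mod_cast k1.le
    have k3 := mul_le_mul_of_nonneg_left (h2 n (by omega))
      (show (0 : ℝ) ≤ D * a + 1 by positivity)
    have k4 : ((D : ℝ) * a + 1) * ((1 - 1 / (2 * (D * a + 1))) *
        ((n : ℝ) ^ (r - 1) / (r - 1).factorial)) = D * (2 * ((a / (2 * (r - 1).factorial) +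
          1 / (4 * D * (r - 1).factorial)) * (n : ℝ) ^ (r - 1))) := by
      field_simp
      ring
    rw [eα]
    have k5 := le_of_mul_le_mul_left (k4.symm.le.trans (k3.trans k2)) hD'
    linarith

end Pool.Agent.MP_038f7f_co.H95
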