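import Mathlib
import Pool.Agent.MP_038f7f_co.h77.Main

set_option autoImplicit false

namespace Pool.Agent.Results.MP_038f7f_co.TuzaFails

/-- `G` contains a copy of `F` -/
def Contains {m n : ℕ} (F : Finset (Finset (Fin m))) (G : Finset (Finset (Fin n))) : Prop :=
  ∃ f : Fin m ↪ Fin n, ∀ e ∈ F, e.map f ∈ G

/-- `G` is an `F`-saturated 3-graph -/
def Saturated {m n : ℕ} (F : Finset (Finset (Fin m))) (G : Finset (Finset (Fin n))) : Prop :=
  (∀ e ∈ G, e.card = 3) ∧ ¬Contains F G ∧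
    ∀ s : Finset (Fin n), s.card = 3 → s ∉ G → Contains F (insert s G)

/-- the saturation number: the least number of edges of an `F`-saturated 3-graph on `n` vertices -/
noncomputable def Sat {m : ℕ} (F : Finset (Finset (Fin m))) (n : ℕ) : ℕ :=
  sInf {k : ℕ | ∃ G : Finset (Finset (Fin n)), Saturated F G ∧ G.card = k}

open Pool.Agent.MP_038f7f_co.H77 in
/-- A single 3-graph `F` whose saturation number is at most `39 / 2 * n ^ 2` when `40 ∣ n` and at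
least `(39 / 2 + c) * n ^ 2` otherwise, so that `Sat(F, n) / n ^ 2` does not converge. -/
theorem result :
    ∃ (m : ℕ) (F : Finset (Finset (Fin m))), F.Nonempty ∧ (∀ e ∈ F, e.card = 3) ∧
      ∃ c : ℝ, 0 < c ∧ ∃ n₀ : ℕ, ∀ n : ℕ, n₀ ≤ n →
        (40 ∣ n → (Sat F n : ℝ) ≤ 39 / 2 * (n : ℝ) ^ 2) ∧
        (¬40 ∣ n → (39 / 2 + c) * (n : ℝ) ^ 2 ≤ (Sat F n : ℝ)) := by
  have key : ∀ n : ℕ, 10 ^ 50 ≤ n → (40 ∣ n → (Sat FF n : ℝ) ≤ 39 / 2 * (n : ℝ) ^ 2) ∧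
      (¬40 ∣ n → (39 / 2 + 1 / (6 * 10 ^ 12)) * (n : ℝ) ^ 2 ≤ (Sat FF n : ℝ)) := by
    intro n hn
    constructor
    · intro hd
      have h1 : Sat FF n ≤ (G0 n).card := Nat.sInf_le ⟨G0 n,
        ⟨G0_card3, G0_free n, G0_sat n (le_trans (by norm_num) hn) hd⟩, rfl⟩
      have h2 : 2 * Sat FF n ≤ 39 * n ^ 2 := le_trans (by omega) (G0_card n)
      have h3 : (2 : ℝ) * Sat FF n ≤ 39 * (n : ℝ) ^ 2 := by exact_mod_cast h2
      linarith
    · intro hd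
      obtain ⟨G, hG, hk⟩ : Sat FF n ∈ {k : ℕ | ∃ G : Finset (Finset (Fin n)),
          Saturated FF G ∧ G.card = k} := by
        obtain ⟨G, hG⟩ := exists_sat FF FF_nonempty n
        exact Nat.sInf_mem ⟨G.card, G, hG, rfl⟩
      have h2 := lower_G n hn hd G hG.1 hG.2.1 hG.2.2
      rw [hk] at h2
      have h3 : ((117 : ℝ) * 10 ^ 12 + 1) * (n : ℝ) ^ 2 ≤ 10 ^ 12 * (6 * (Sat FF n : ℝ)) := by
        exact_mod_cast h2
      linarith
  exact ⟨_, FF, FF_nonempty, FF_card, 1 / (6 * 10 ^ 12), by norm_num, 10 ^ 50, key⟩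

end Pool.Agent.Results.MP_038f7f_co.TuzaFails
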